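import Pool.Agent.TPM.Targets
import Pool.Agent.Ell.Main

set_option autoImplicit false

/-! TPM-LC: large conductor or large `t` -/

namespace Pool.Agent.TPM

open Finset Filter Pool.Agent.Ell
open scoped BigOperators ComplexConjugate

namespace LC_

theorem ev_pairs {α : Type} {l : Filter α} (P : Finset ℕ) {S : α → ℕ → ℕ → Prop}
    (h : ∀ p ∈ P, ∀ q ∈ P, p ≠ q → ∀ᶠ a in l, S a p q) :
    ∀ᶠ a in l, ∀ p ∈ P, ∀ q ∈ P, p ≠ q → S a p q := by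
  rw [Filter.eventually_all_finset]
  intro p hp
  rw [Filter.eventually_all_finset]
  intro q hq
  by_cases hpq : p = q
  · exact Filter.Eventually.of_forall (fun z h => absurd hpq h)
  · exact (h p hp q hq hpq).mono fun a ha _ => ha

/-- the bound for the cross sums at `x` -/
def CB (a : ℤ) (C δ B : ℝ) (z V R : ℕ) (A : ℝ) (x p p' : ℕ) : Prop :=
  ∀ (r : ℕ) (ψ : DirichletCharacter ℂ r) (f : ℕ → ℂ) (t : ℝ), 1 ≤ r →
  (r : ℝ) ≤ (x : ℝ) ^ (1 / A) → ψ.IsPrimitive → MB f → |t| ≤ (x : ℝ) ^ C →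
  (R < r ∨ B * x < |t|) → ∀ M : ℕ, M ≤ x →
  ‖∑ m ∈ Finset.Icc 1 M, Gf f ψ t (DD z V r) z ⌊(x : ℝ) ^ (1 / A)⌋₊ (sh a (p * m)) *
    conj (Gf f ψ t (DD z V r) z ⌊(x : ℝ) ^ (1 / A)⌋₊ (sh a (p' * m)))‖ ≤ δ * x

theorem crs_ev (h2 : T_CRS) (a : ℤ) (p p' : ℕ) (C δ : ℝ) (ha : a ≠ 0) (hp : p.Prime)
    (hp' : p'.Prime) (hne : p ≠ p') (hap : |a| < (p : ℤ)) (hap' : |a| < (p' : ℤ)) (hC : 0 < C)
    (hδ : 0 < δ) :
    ∀ᶠ B : ℝ in atTop, ∀ᶠ z : ℕ in atTop, ∀ V : ℕ, ∀ᶠ R : ℕ in atTop, ∀ᶠ A : ℝ in atTop,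
      ∀ᶠ x : ℕ in atTop, CB a C δ B z V R A x p p' := by
  obtain ⟨B₀, z₀, hB₀, h⟩ := h2 a p p' C δ ha hp hp' hne hap hap' hC hδ
  filter_upwards [eventually_ge_atTop B₀] with B hB
  filter_upwards [eventually_ge_atTop z₀] with z hz V
  obtain ⟨R₀, A₀, hA₀, h3⟩ := h z V hz
  filter_upwards [eventually_ge_atTop R₀] with R hR
  filter_upwards [eventually_ge_atTop A₀] with A hA
  obtain ⟨X, hX⟩ := h3 A hA
  filter_upwards [eventually_ge_atTop X] with x hx r ψ f t hr hrx hψ hf ht hor M hM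
  refine hX x r ψ f t hx hr hrx hψ hf ht ?_ M hM
  rcases hor with h4 | h4
  · exact Or.inl (lt_of_le_of_lt hR h4)
  · exact Or.inr (lt_of_le_of_lt (mul_le_mul_of_nonneg_right hB (Nat.cast_nonneg x)) h4)

end LC_

open LC_ in
theorem prove_LC (h1 : T_KAT) (h2 : T_CRS) (h3 : T_STR) (h4 : T_XZ) : T_LC := by
  intro a C ε ha hC hε
  obtain ⟨P, δ, X₁, hP, hδ, hKAT⟩ := h1 (ε / 2) a.natAbs (by positivity)
  have hPa : ∀ p ∈ P, |a| < (p : ℤ) := by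
    intro p hp
    have h5 := (hP p hp).2
    rw [Int.abs_eq_natAbs]
    exact_mod_cast h5
  obtain ⟨B, hB⟩ := (ev_pairs P fun p hp q hq hpq => crs_ev h2 a p q C δ ha (hP p hp).1
    (hP q hq).1 hpq (hPa p hp) (hPa q hq) hC hδ).exists
  obtain ⟨z₁, hz₁⟩ := h3 (ε / 4) (by positivity)
  obtain ⟨z, hz, hzz⟩ := ((ev_pairs P hB).and (eventually_ge_atTop z₁)).exists
  obtain ⟨V, A₁, hA₁, hV⟩ := hz₁ z hzz
  obtain ⟨R, hR⟩ := (ev_pairs P fun p hp q hq hpq => hz p hp q hq hpq V).exists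
  obtain ⟨A, hA, hAA⟩ := ((ev_pairs P hR).and (eventually_ge_atTop A₁)).exists
  obtain ⟨X₂, hX₂⟩ := hV A hAA
  have hx := ((ev_pairs P hA).and ((eventually_ge_atTop X₁).and ((eventually_ge_atTop X₂).and
    (eventually_ge_atTop ⌈8 * (a.natAbs : ℝ) / ε⌉₊))))
  obtain ⟨X, hX⟩ := Filter.eventually_atTop.1 hx
  refine ⟨R, X, B, A, hA₁.trans hAA, fun x r ψ f g t hxX hf hg hr hψ hrx ht hd hor => ?_⟩
  obtain ⟨hx1, hx2, hx3, hx4⟩ := hX x hxX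
  set D := DD z V r with hD
  set w := ⌊(x : ℝ) ^ (1 / A)⌋₊ with hw
  have hD1 : 1 ≤ D := (h4.1 z V r hr).1
  obtain ⟨-, -, hG, -⟩ := h4.2 r ψ f t D hf hD1
  have hK := hKAT x hx2 g (fun n => Gf f ψ t D z w (sh a n)) hg (fun n => hG z w _)
    fun p hp q hq hpq => hx1 p hp q hq hpq r ψ f t hr hrx hψ hf ht hor (x / max p q)
      (Nat.div_le_self _ _)
  have hS := hX₂ x f r ψ t hx3 hf hr hd
  have hsh := MainAux.sum_sh (fun m => ‖f m - Gf f ψ t D z w m‖) (fun _ => norm_nonneg _)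
    (fun m => by
      refine (norm_sub_le _ _).trans ?_
      linarith [hf.bd m, hG z w m]) a x
  have h8 : 2 * (a.natAbs : ℝ) ≤ ε / 4 * x := by
    have h9 : 8 * (a.natAbs : ℝ) / ε ≤ x := Nat.ceil_le.1 hx4
    rw [div_le_iff₀ hε] at h9
    linarith
  have e : ∑ n ∈ Finset.Icc 1 x, g n * f (sh a n) =
      ∑ n ∈ Finset.Icc 1 x, g n * Gf f ψ t D z w (sh a n) +
        ∑ n ∈ Finset.Icc 1 x, g n * (f (sh a n) - Gf f ψ t D z w (sh a n)) := by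
    rw [← Finset.sum_add_distrib]
    refine Finset.sum_congr rfl fun n _ => ?_
    ring
  have h10 : ‖∑ n ∈ Finset.Icc 1 x, g n * (f (sh a n) - Gf f ψ t D z w (sh a n))‖ ≤
      ∑ n ∈ Finset.Icc 1 x, ‖f (sh a n) - Gf f ψ t D z w (sh a n)‖ := by
    refine (norm_sum_le _ _).trans (Finset.sum_le_sum fun n _ => ?_)
    rw [norm_mul]
    exact mul_le_of_le_one_left (norm_nonneg _) (hg.bd n)
  rw [e]
  refine (norm_add_le _ _).trans ?_
  have h11 := (h10.trans hsh).trans (add_le_add hS h8)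
  linarith

end Pool.Agent.TPM
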