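import Pool.Agent.TPM.Targets
import Pool.Agent.Ell.KeyC
import Pool.Agent.Ell.MS

set_option autoImplicit false

/-! Two-point Elliott, large conductor or large `t` (MP_f3f922_nt): one dyadic block. -/

namespace Pool.Agent.TPM

open Finset Filter Pool.Agent.Ell
open scoped BigOperators ComplexConjugate

namespace BLKaux

open Pool.Agent.Ell.KeyA Pool.Agent.Ell.KeyB Pool.Agent.Ell.KeyC

/-- the shift of a multiple of `p` as an integer -/
lemma sh_cast (a : ℤ) (p m : ℕ) (hm : 1 ≤ m) (hp : |a| < (p : ℤ)) :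
    ((sh a (p * m) : ℕ) : ℤ) = (p : ℤ) * m + a := by
  have h2 : (0 : ℤ) < ((p * m : ℕ) : ℤ) + a := by
    have h3 : (p : ℤ) ≤ ((p * m : ℕ) : ℤ) := by
      push_cast
      have : (1 : ℤ) ≤ m := by exact_mod_cast hm
      nlinarith [abs_nonneg a]
    have := neg_abs_le a
    linarith
  unfold sh
  rw [Int.toNat_of_nonneg h2.le]
  push_cast
  ring

/-- the structured function at `p m + a` -/
lemma Gf_eq {r : ℕ} (f : ℕ → ℂ) (ψ : DirichletCharacter ℂ r) (t : ℝ) (D z w : ℕ) (a : ℤ)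
    (p m : ℕ) (hm : 1 ≤ m) (hp : |a| < (p : ℤ)) (hpp : ∀ ℓ ∈ prs z w, ¬ ℓ ∣ p) :
    Gf f ψ t D z w (sh a (p * m)) = ph (fun _ : Fin 1 => a) (fun _ => t) (p * m) *
      (xz f ψ t D ((p : ℤ) * m + a) *
        ∏ ℓ ∈ prs z w, lf ℓ (fun _ : Fin 1 => al ℓ p a) (fun _ => zt f ψ t ℓ) m) := by
  unfold Gf
  have h1 : ph (fun _ : Fin 1 => a) (fun _ => t) (p * m) = nit t (sh a (p * m)) := by
    simp [ph]
  rw [h1, sh_cast a p m hm hp, Finset.prod_filter]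
  congr 2
  refine Finset.prod_congr rfl (fun ℓ hℓ => ?_)
  have hpr : ℓ.Prime := (Finset.mem_filter.1 hℓ).2
  have h2 := loc_lf (fun _ : Fin 1 => a) (fun _ ℓ => zt f ψ t ℓ) ℓ p m hpr (hpp ℓ hℓ)
  rw [← h2]
  unfold loc
  have h3 : (((p * m : ℕ) : ℤ) + a) = ((sh a (p * m) : ℕ) : ℤ) := by
    rw [sh_cast a p m hm hp]; push_cast; ring
  rw [Fin.prod_univ_one, h3]
  simp only [Int.natCast_dvd_natCast]

/-- the size of the phase -/
lemma Lam_one (a : ℤ) (t : ℝ) (N B : ℝ) (ha : a ≠ 0) (hN : 0 < N) (h : B * N < |t|) :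
    B ≤ Lam (fun _ : Fin 1 => a) (fun _ => t) N := by
  unfold Lam tau
  rw [Finset.Icc_self, Finset.sum_singleton, Fin.sum_univ_one, pow_one, pow_one, abs_mul,
    le_div_iff₀ hN]
  have h1 : (1 : ℝ) ≤ |(a : ℝ)| := by
    have : (1 : ℤ) ≤ |a| := Int.one_le_abs ha
    exact_mod_cast this
  have h2 : |t| ≤ |t| * |(a : ℝ)| := le_mul_of_one_le_right (abs_nonneg _) h1
  linarith

/-- the modulus is small -/
lemma mod_bound (c0 : ℝ) (hc0 : 0 < c0) (Q D r N : ℕ) (hN1 : 1 ≤ N)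
    (hN : ⌈(Q : ℝ) ^ (4 / c0)⌉₊ ≤ N) (hD : D ≤ Q * r) (hr : (r : ℝ) ≤ (N : ℝ) ^ (c0 / 4)) :
    ((D * r : ℕ) : ℝ) ≤ (N : ℝ) ^ (3 * c0 / 4) := by
  have hNpos : (0 : ℝ) < N := by exact_mod_cast hN1
  have hQ : (Q : ℝ) ≤ (N : ℝ) ^ (c0 / 4) := by
    have h1 : (Q : ℝ) ^ (4 / c0) ≤ N := (Nat.le_ceil _).trans (by exact_mod_cast hN)
    have h2 : ((Q : ℝ) ^ (4 / c0)) ^ (c0 / 4) = Q := by
      rw [← Real.rpow_mul (by positivity)]
      have : 4 / c0 * (c0 / 4) = 1 := by field_simp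
      rw [this, Real.rpow_one]
    calc (Q : ℝ) = ((Q : ℝ) ^ (4 / c0)) ^ (c0 / 4) := h2.symm
      _ ≤ (N : ℝ) ^ (c0 / 4) := Real.rpow_le_rpow (by positivity) h1 (by positivity)
  have hD' : (D : ℝ) ≤ Q * r := by exact_mod_cast hD
  have hpos : 0 ≤ (N : ℝ) ^ (c0 / 4) := by positivity
  calc ((D * r : ℕ) : ℝ) = (D : ℝ) * r := by push_cast; ring
    _ ≤ (Q * r) * r := mul_le_mul_of_nonneg_right hD' (by positivity)
    _ ≤ ((N : ℝ) ^ (c0 / 4) * (N : ℝ) ^ (c0 / 4)) * (N : ℝ) ^ (c0 / 4) :=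
        mul_le_mul (mul_le_mul hQ hr (by positivity) hpos) hr (by positivity) (by positivity)
    _ = (N : ℝ) ^ (3 * c0 / 4) := by
        rw [← Real.rpow_add hNpos, ← Real.rpow_add hNpos]
        congr 1
        ring

end BLKaux

open Pool.Agent.Ell.KeyA Pool.Agent.Ell.KeyB Pool.Agent.Ell.KeyC BLKaux in
theorem prove_BLK (h1 : T_MSU) (h2 : T_EQ) (h3 : T_OSC) (h4 : T_MN) (h5 : T_XZ) : T_BLK := by
  classical
  intro a p p' C η ha hp hp' hpp hpa hpa' hC hη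
  obtain ⟨c0, N1, hc0, hc04, hEQ⟩ := h2 1 (fun _ => a) p p' C le_rfl
    (fun i j _ => Subsingleton.elim i j) (fun _ => ha) hp.one_le hp'.one_le hpp hC
  obtain ⟨B, N2, hB, hOSC⟩ := h3 1 (fun _ => a) p p' C (η / 2) le_rfl
    (fun i j _ => Subsingleton.elim i j) (fun _ => ha) hp.one_le hp'.one_le hpp hC (by positivity)
  obtain ⟨s, N3, hs, hMSU⟩ := h1 2 c0 (η / 2) (by norm_num) hc0 hc04 (by positivity)
  obtain ⟨z1, hMN⟩ := h4 a p p' (η / 2) ha hp hp' hpp (by positivity)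
  refine ⟨s, c0 / 4, B, max 4 (max p (max p' z1)), hs, by positivity, hB, ?_⟩
  intro z V hz
  have hz4 : 4 ≤ z := le_trans (le_max_left _ _) hz
  have hzp : p ≤ z := le_trans (le_trans (le_max_left _ _) (le_max_right _ _)) hz
  have hzp' : p' ≤ z := le_trans (le_trans (le_trans (le_max_left _ _) (le_max_right _ _))
    (le_max_right _ _)) hz
  have hz1 : z1 ≤ z := le_trans (le_trans (le_trans (le_max_right _ _) (le_max_right _ _))
    (le_max_right _ _)) hz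
  obtain ⟨R, hR⟩ := hMN z V hz1
  refine ⟨R, max (max N1 N2) (max N3 (max 1 ⌈(Rep.Q1 z V : ℝ) ^ (4 / c0)⌉₊)), ?_⟩
  intro N w r ψ f t hN hw hr hrN hψ hf ht hcase x y hNx hxy hyN
  have hN1 : N1 ≤ N := le_trans (le_trans (le_max_left _ _) (le_max_left _ _)) hN
  have hN2 : N2 ≤ N := le_trans (le_trans (le_max_right _ _) (le_max_left _ _)) hN
  have hN3 : N3 ≤ N := le_trans (le_trans (le_max_left _ _) (le_max_right _ _)) hN
  have hN4 : 1 ≤ N := le_trans (le_trans (le_trans (le_max_left _ _) (le_max_right _ _))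
    (le_max_right _ _)) hN
  have hN5 : ⌈(Rep.Q1 z V : ℝ) ^ (4 / c0)⌉₊ ≤ N := le_trans (le_trans (le_trans
    (le_max_right _ _) (le_max_right _ _)) (le_max_right _ _)) hN
  have hNpos : (0 : ℝ) < N := by exact_mod_cast hN4
  obtain ⟨hD1, hD2, hD3⟩ := h5.1 z V r hr
  obtain ⟨-, hx2, -, hx4, hx5, -⟩ := h5.2 r ψ f t (DD z V r) hf hD1
  have hmodb := mod_bound c0 hc0 (Rep.Q1 z V) (DD z V r) r N hN4 hN5 hD2 hrN
  have hmnr := hR r ψ f t
  set D := DD z V r with hD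
  have hmem : ∀ ℓ ∈ prs z w, z < ℓ ∧ ℓ.Prime := by
    intro ℓ hℓ
    simp only [prs, Finset.mem_filter, Finset.mem_Ioc] at hℓ
    exact ⟨hℓ.1.1, hℓ.2⟩
  have hnp : ∀ ℓ ∈ prs z w, ¬ ℓ ∣ p := by
    intro ℓ hℓ h
    have := Nat.le_of_dvd hp.pos h
    have := (hmem ℓ hℓ).1
    omega
  have hnp' : ∀ ℓ ∈ prs z w, ¬ ℓ ∣ p' := by
    intro ℓ hℓ h
    have := Nat.le_of_dvd hp'.pos h
    have := (hmem ℓ hℓ).1
    omega
  set E : ℕ → ℂ := fun m => ei (PF (fun _ : Fin 1 => a) (fun _ => t) p p' 0 m) with hE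
  set al2 : ∀ ℓ : ℕ, Fin 1 ⊕ Fin 1 → ZMod ℓ := fun ℓ =>
    Sum.elim (fun _ : Fin 1 => al ℓ p a) (fun _ : Fin 1 => al ℓ p' a) with hal2
  set v2 : ℕ → Fin 1 ⊕ Fin 1 → ℂ := fun ℓ =>
    Sum.elim (fun _ : Fin 1 => zt f ψ t ℓ) (fun _ : Fin 1 => conj (zt f ψ t ℓ)) with hv2
  set u : ℕ → ℕ → ℂ := fun ℓ m => lf ℓ (al2 ℓ) (v2 ℓ) m - 1 with hu
  have hv2b : ∀ ℓ : ℕ, 1 ≤ ℓ → ∀ i, ‖v2 ℓ i‖ ≤ 1 := by
    intro ℓ hℓ i
    rcases i with j | j
    · exact hx2 ℓ hℓ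
    · simp only [hv2, Sum.elim_inr, RCLike.norm_conj]
      exact hx2 ℓ hℓ
  have hE1 : ∀ m, ‖E m‖ ≤ 1 := fun m => (norm_ei _).le
  have hyxN : y ≤ x + N := by omega
  -- the local functions
  have hloc : ∀ ℓ ∈ prs z w, Per ℓ (u ℓ) ∧
      ((Finset.univ : Finset (Fin 1 ⊕ Fin 1)).image (fun i => (al2 ℓ i).val)).card ≤ 2 ∧
      ∀ m, ‖1 + u ℓ m‖ ≤ 1 ∧ (u ℓ m ≠ 0 →
        m % ℓ ∈ (Finset.univ : Finset (Fin 1 ⊕ Fin 1)).image (fun i => (al2 ℓ i).val)) := by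
    intro ℓ hℓ
    have hℓ' := (hmem ℓ hℓ).1
    have : NeZero ℓ := ⟨by omega⟩
    refine ⟨per_lf ℓ (al2 ℓ) (v2 ℓ), ?_, ?_⟩
    · refine Finset.card_image_le.trans ?_
      simp
    · intro m
      refine ⟨?_, ?_⟩
      · have : 1 + u ℓ m = lf ℓ (al2 ℓ) (v2 ℓ) m := by simp only [hu]; ring
        rw [this]
        exact norm_lf ℓ (al2 ℓ) (v2 ℓ) (hv2b ℓ (by omega)) m
      · intro hne
        by_contra hcon
        apply hne
        have hno : ∀ i, ¬ ((m : ZMod ℓ) = al2 ℓ i) := by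
          intro i hi
          apply hcon
          rw [Finset.mem_image]
          refine ⟨i, Finset.mem_univ _, ?_⟩
          rw [← hi, ZMod.val_natCast]
        have : lf ℓ (al2 ℓ) (v2 ℓ) m = 1 := by
          unfold lf
          refine Finset.prod_eq_one (fun i _ => ?_)
          rw [if_neg (hno i)]
        simp [hu, this]
  have hzero : ∀ ℓ ∈ prs z w, ℓ ∣ D * r → ∀ m, u ℓ m = 0 := by
    intro ℓ hℓ hdvd m
    obtain ⟨hzl, hlp⟩ := hmem ℓ hℓ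
    have hlr : ℓ ∣ r := by
      rcases (Nat.Prime.dvd_mul hlp).1 hdvd with h | h
      · exact (hD3 ℓ hlp hzl).1 h
      · exact h
    have hzt : zt f ψ t ℓ = 1 := by
      unfold zt
      rw [if_pos hlr]
    have hv1 : ∀ i, v2 ℓ i = 1 := by
      intro i
      rcases i with j | j
      · simp [hv2, hzt]
      · simp [hv2, hzt]
    have : lf ℓ (al2 ℓ) (v2 ℓ) m = 1 := by
      unfold lf
      refine Finset.prod_eq_one (fun i _ => ?_)
      rw [hv1 i]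
      simp
    simp [hu, this]
  have hq0 : 1 ≤ D * r := Nat.mul_pos hD1 hr
  have hmain := hMSU N z w (D * r) hN3 (by omega) hw hq0 hmodb E x y hE1 hxy hyxN
    (fun q ξ hq hqN hper hξ => hEQ N (fun _ => t) hN1 (fun _ => ht) q ξ hq hqN hper hξ x y hNx
      hxy hyN) (Lm f ψ t D a p p') u
    (fun ℓ => (Finset.univ : Finset (Fin 1 ⊕ Fin 1)).image (fun i => (al2 ℓ i).val))
    (hx4 a p p') (hx5 a p p') hloc hzero
  -- the sum in question
  have hsum : ∑ m ∈ Finset.Ioc x y, Gf f ψ t D z w (sh a (p * m)) *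
      conj (Gf f ψ t D z w (sh a (p' * m))) =
      ∑ m ∈ Finset.Ioc x y, E m * (Lm f ψ t D a p p' m * ∏ ℓ ∈ prs z w, (1 + u ℓ m)) := by
    refine Finset.sum_congr rfl (fun m hm => ?_)
    rw [Finset.mem_Ioc] at hm
    have hm1 : 1 ≤ m := by omega
    rw [Gf_eq f ψ t D z w a p m hm1 hpa hnp, Gf_eq f ψ t D z w a p' m hm1 hpa' hnp']
    have hph := ph_cross (fun _ : Fin 1 => a) (fun _ => t) p p' m hm1 (fun _ => hpa)
      (fun _ => hpa')
    have hE' : E m = ei (PF (fun _ : Fin 1 => a) (fun _ => t) p p' 0 m) := rfl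
    rw [hE', ← hph]
    have hprod : ∏ ℓ ∈ prs z w, (1 + u ℓ m) =
        (∏ ℓ ∈ prs z w, lf ℓ (fun _ : Fin 1 => al ℓ p a) (fun _ => zt f ψ t ℓ) m) *
        conj (∏ ℓ ∈ prs z w, lf ℓ (fun _ : Fin 1 => al ℓ p' a) (fun _ => zt f ψ t ℓ) m) := by
      rw [map_prod, ← Finset.prod_mul_distrib]
      refine Finset.prod_congr rfl (fun ℓ _ => ?_)
      rw [conj_lf, lf_mul]
      simp only [hu, hal2, hv2]
      ring
    rw [hprod]
    unfold Lm
    simp only [map_mul]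
    ring
  rw [hsum]
  -- the main term
  have hprodn : ‖∏ ℓ ∈ prs z w, (1 + mean ℓ (u ℓ))‖ ≤ 1 := by
    refine norm_prod_le_one _ _ (fun ℓ hℓ => ?_)
    have := (hmem ℓ hℓ).2.one_le
    exact MSaux.norm_one_add_mean_le this (u ℓ) (fun m => ((hloc ℓ hℓ).2.2 m).1)
  have hmeann : ‖mean (D * r) (Lm f ψ t D a p p')‖ ≤ 1 :=
    MSaux.norm_mean_le hq0 _ (hx5 a p p')
  have hSEn : ‖∑ m ∈ Finset.Ioc x y, E m‖ ≤ N := by
    refine (norm_sum_le _ _).trans ?_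
    refine (Finset.sum_le_sum (fun m _ => hE1 m)).trans ?_
    simp only [Finset.sum_const, Nat.card_Ioc, nsmul_eq_mul, mul_one]
    have : y - x ≤ N := by omega
    exact_mod_cast this
  have hterm : ‖mean (D * r) (Lm f ψ t D a p p') * (∏ ℓ ∈ prs z w, (1 + mean ℓ (u ℓ))) *
      ∑ m ∈ Finset.Ioc x y, E m‖ ≤ η / 2 * N := by
    rw [norm_mul, norm_mul]
    rcases hcase with hc | hc
    · have hm := hmnr hc hψ hf
      calc ‖mean (D * r) (Lm f ψ t D a p p')‖ * ‖∏ ℓ ∈ prs z w, (1 + mean ℓ (u ℓ))‖ *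
            ‖∑ m ∈ Finset.Ioc x y, E m‖ ≤ (η / 2 * 1) * N :=
            mul_le_mul (mul_le_mul hm hprodn (norm_nonneg _) (by positivity)) hSEn
              (norm_nonneg _) (by positivity)
        _ = η / 2 * N := by ring
    · have hL := Lam_one a t N B ha hNpos hc
      have ho := hOSC N (fun _ => t) hN2 (fun _ => ht) hL x y hNx hxy hyN
      calc ‖mean (D * r) (Lm f ψ t D a p p')‖ * ‖∏ ℓ ∈ prs z w, (1 + mean ℓ (u ℓ))‖ *
            ‖∑ m ∈ Finset.Ioc x y, E m‖ ≤ (1 * 1) * (η / 2 * N) :=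
            mul_le_mul (mul_le_mul hmeann hprodn (norm_nonneg _) zero_le_one) ho
              (norm_nonneg _) (by norm_num)
        _ = η / 2 * N := by ring
  set S1 := ∑ m ∈ Finset.Ioc x y, E m * (Lm f ψ t D a p p' m * ∏ ℓ ∈ prs z w, (1 + u ℓ m))
    with hS1
  set S2 := mean (D * r) (Lm f ψ t D a p p') * (∏ ℓ ∈ prs z w, (1 + mean ℓ (u ℓ))) *
      ∑ m ∈ Finset.Ioc x y, E m with hS2
  calc ‖S1‖ = ‖(S1 - S2) + S2‖ := by rw [sub_add_cancel]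
    _ ≤ ‖S1 - S2‖ + ‖S2‖ := norm_add_le _ _
    _ ≤ η / 2 * N + η / 2 * N := add_le_add hmain hterm
    _ = η * N := by ring

end Pool.Agent.TPM
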