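import Pool.Agent.TPM.XZ
import Pool.Agent.EllTw.RAM
import Pool.Agent.EllTw.MEAN

set_option autoImplicit false

/-! TPM-MEA: the mean of the cross product if a prime above `z` divides the conductor. -/

namespace Pool.Agent.TPM

open Finset Filter Pool.Agent.Ell
open scoped BigOperators ComplexConjugate

namespace MEA_

lemma sum_aff {L : ℕ} [NeZero L] (F : ZMod L → ℂ) (m0 M : ℕ) (hM : M.Coprime L) :
    ∑ s ∈ range L, F ((m0 : ZMod L) + (M : ZMod L) * (s : ZMod L)) = ∑ x : ZMod L, F x := by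
  rw [EllTw.RAM_.sum_range_zmod (fun x => F ((m0 : ZMod L) + (M : ZMod L) * x))]
  obtain ⟨u, hu⟩ := (ZMod.isUnit_iff_coprime M L).mpr hM
  rw [← hu]
  refine Fintype.sum_bijective (fun x : ZMod L => (m0 : ZMod L) + (u : ZMod L) * x) ?_ _ _
    (fun x => rfl)
  exact ((Equiv.addLeft (m0 : ZMod L)).bijective).comp (Units.mulLeft_bijective u)

lemma per_mul' {f : ℕ → ℝ} {a : ℕ} (h : ∀ m, f (m + a) = f m) (c m : ℕ) :
    f (m + a * c) = f m := by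
  induction c with
  | zero => simp
  | succ c ih => rw [Nat.mul_succ, ← add_assoc, h, ih]

lemma sum_per' {f : ℕ → ℝ} {a : ℕ} (h : ∀ m, f (m + a) = f m) (c : ℕ) :
    ∑ m ∈ range (a * c), f m = c * ∑ m ∈ range a, f m := by
  induction c with
  | zero => simp
  | succ c ih =>
    rw [Nat.mul_succ, Finset.sum_range_add, ih]
    have : ∑ x ∈ range a, f (a * c + x) = ∑ x ∈ range a, f x := by
      refine Finset.sum_congr rfl fun x _ => ?_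
      rw [add_comm, per_mul' h]
    rw [this]
    push_cast
    ring

lemma count {ℓ : ℕ} (hℓ : ℓ.Prime) (p m0 M k : ℕ) (a : ℤ) (hp : ¬ ℓ ∣ p) (hM : ¬ ℓ ∣ M) :
    ∑ s ∈ range (ℓ * ℓ ^ k), (if (ℓ : ℤ) ∣ (p : ℤ) * ((m0 + M * s : ℕ) : ℤ) + a then (1 : ℝ) else 0)
      ≤ (ℓ : ℝ) ^ k := by
  rw [sum_per' (a := ℓ)]
  · have h1 : ∑ s ∈ range ℓ, (if (ℓ : ℤ) ∣ (p : ℤ) * ((m0 + M * s : ℕ) : ℤ) + a then (1 : ℝ)
        else 0) ≤ 1 := by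
      rw [← Finset.sum_filter, Finset.sum_const, nsmul_eq_mul, mul_one]
      have h2 : ((range ℓ).filter
          (fun s => (ℓ : ℤ) ∣ (p : ℤ) * ((m0 + M * s : ℕ) : ℤ) + a)).card ≤ 1 := by
        rw [Finset.card_le_one]
        intro s hs s' hs'
        rw [Finset.mem_filter, Finset.mem_range] at hs hs'
        have h3 := dvd_sub hs.2 hs'.2
        have h4 : (p : ℤ) * ((m0 + M * s : ℕ) : ℤ) + a - ((p : ℤ) * ((m0 + M * s' : ℕ) : ℤ) + a) =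
            ((p : ℤ) * M) * ((s : ℤ) - s') := by
          push_cast
          ring
        rw [h4] at h3
        have hℓ' : Prime (ℓ : ℤ) := Nat.prime_iff_prime_int.mp hℓ
        rcases hℓ'.dvd_or_dvd h3 with h5 | h5
        · rcases hℓ'.dvd_or_dvd h5 with h6 | h6
          · exact absurd (by exact_mod_cast h6) hp
          · exact absurd (by exact_mod_cast h6) hM
        · have h6 : (s : ℤ) - s' = 0 := by
            refine Int.eq_zero_of_abs_lt_dvd h5 ?_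
            rw [abs_lt]
            constructor <;> omega
          omega
      exact_mod_cast h2
    calc ((ℓ ^ k : ℕ) : ℝ) * _ ≤ ((ℓ ^ k : ℕ) : ℝ) * 1 :=
          mul_le_mul_of_nonneg_left h1 (by positivity)
      _ = (ℓ : ℝ) ^ k := by push_cast; ring
  · intro m
    have h1 : (p : ℤ) * ((m0 + M * (m + ℓ) : ℕ) : ℤ) + a =
        ((p : ℤ) * ((m0 + M * m : ℕ) : ℤ) + a) + ℓ * (p * M) := by
      push_cast
      ring
    rw [h1]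
    have h2 : (ℓ : ℤ) ∣ ((p : ℤ) * ((m0 + M * m : ℕ) : ℤ) + a) + ℓ * (p * M) ↔
        (ℓ : ℤ) ∣ (p : ℤ) * ((m0 + M * m : ℕ) : ℤ) + a := by
      exact (Int.dvd_add_left (Dvd.intro _ rfl))
    simp only [h2]

/-- the structured factor along a progression -/
lemma xz_prog {ℓ k r' D' : ℕ} (hℓ : ℓ.Prime) (hD' : ¬ ℓ ∣ D')
    (ψ : DirichletCharacter ℂ (ℓ ^ k * r'))
    (ψ₁ : DirichletCharacter ℂ (ℓ ^ k)) (ψ₂ : DirichletCharacter ℂ r')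
    (hψ : ∀ n : ℤ, ψ (n : ZMod (ℓ ^ k * r')) = ψ₁ (n : ZMod (ℓ ^ k)) * ψ₂ (n : ZMod r'))
    (f : ℕ → ℂ) (hf : MB f) (t : ℝ) (n0 c : ℤ) :
    ∃ κ : ℂ, ‖κ‖ ≤ 1 ∧ ∀ s : ℤ, ¬ (ℓ : ℤ) ∣ n0 + (D' * r' : ℕ) * (c * s) →
      xz f ψ t (ℓ * D') (n0 + (D' * r' : ℕ) * (c * s)) =
        κ * ψ₁ ((n0 + (D' * r' : ℕ) * (c * s) : ℤ) : ZMod (ℓ ^ k)) := by
  set e := Int.gcd n0 D' with he
  have hD0 : D' ≠ 0 := by
    rintro rfl
    exact hD' (dvd_zero _)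
  have he0 : 0 < e := Int.gcd_pos_of_ne_zero_right _ (by exact_mod_cast hD0)
  have heD : e ∣ D' := by
    have := Int.gcd_dvd_right n0 (D' : ℤ)
    rw [← he] at this
    exact_mod_cast this
  have hen : (e : ℤ) ∣ n0 := Int.gcd_dvd_left _ _
  have heℓ : ¬ ℓ ∣ e := fun h => hD' (h.trans heD)
  have hu : ‖ψ₁ ((e : ℤ) : ZMod (ℓ ^ k))‖ = 1 := by
    have : NeZero (ℓ ^ k) := ⟨pow_ne_zero _ hℓ.ne_zero⟩
    have h1 : IsUnit ((e : ℕ) : ZMod (ℓ ^ k)) :=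
      (ZMod.isUnit_iff_coprime e (ℓ ^ k)).2
        (Nat.Coprime.pow_right _ ((Nat.Prime.coprime_iff_not_dvd hℓ).2 heℓ).symm)
    have h2 := ψ₁.unit_norm_eq_one h1.unit
    simpa using h2
  refine ⟨f e * conj (nit t e) * ψ₂ ((n0 / (e : ℤ) : ℤ) : ZMod r') *
    conj (ψ₁ ((e : ℤ) : ZMod (ℓ ^ k))), ?_, ?_⟩
  · rw [norm_mul, norm_mul, norm_mul, RCLike.norm_conj, RCLike.norm_conj]
    exact mul_le_one₀ (mul_le_one₀ (mul_le_one₀ (hf.bd _) (norm_nonneg _) (KeyA.norm_nit _ _))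
      (norm_nonneg _) (DirichletCharacter.norm_le_one _ _)) (norm_nonneg _) hu.le
  · intro s hs
    set n := n0 + (D' * r' : ℕ) * (c * s) with hn
    have hn' : n = n0 + (D' : ℤ) * (r' * (c * s)) := by
      rw [hn]
      push_cast
      ring
    have hg1 : Int.gcd n D' = e := by
      rw [hn', Int.gcd_add_mul_left_left]
    have hg : Int.gcd n ((ℓ * D' : ℕ) : ℤ) = e := by
      rw [← hg1]
      have hcop : Nat.Coprime n.natAbs ℓ := by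
        rw [Nat.coprime_comm, Nat.Prime.coprime_iff_not_dvd hℓ]
        rwa [← Int.natCast_dvd]
      unfold Int.gcd
      rw [Int.natAbs_natCast, Int.natAbs_natCast]
      exact Nat.Coprime.gcd_mul_left_cancel_right _ hcop.symm
    unfold xz
    rw [hg, hψ]
    have hdiv : n / (e : ℤ) = n0 / (e : ℤ) + (D' : ℤ) / (e : ℤ) * (r' * (c * s)) := by
      have heD' : (e : ℤ) ∣ (D' : ℤ) := by exact_mod_cast heD
      rw [hn', Int.add_ediv_of_dvd_left hen, mul_comm (D' : ℤ) _, Int.mul_ediv_assoc _ heD',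
        mul_comm (r' * (c * s) : ℤ)]
    have h2 : ψ₂ ((n / (e : ℤ) : ℤ) : ZMod r') = ψ₂ ((n0 / (e : ℤ) : ℤ) : ZMod r') := by
      rw [hdiv]
      congr 1
      push_cast
      simp
    have hen' : (e : ℤ) ∣ n := by
      rw [← hg1]
      exact Int.gcd_dvd_left _ _
    have h3 : ψ₁ ((n / (e : ℤ) : ℤ) : ZMod (ℓ ^ k)) * ψ₁ ((e : ℤ) : ZMod (ℓ ^ k)) =
        ψ₁ (n : ZMod (ℓ ^ k)) := by
      rw [← map_mul, ← Int.cast_mul, Int.ediv_mul_cancel hen']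
    have h4 : ψ₁ ((e : ℤ) : ZMod (ℓ ^ k)) * conj (ψ₁ ((e : ℤ) : ZMod (ℓ ^ k))) = 1 := by
      rw [Complex.mul_conj, Complex.normSq_eq_norm_sq, hu]
      norm_num
    rw [h2, ← h3]
    calc f e * conj (nit t e) * (ψ₁ ((n / (e : ℤ) : ℤ) : ZMod (ℓ ^ k)) *
          ψ₂ ((n0 / (e : ℤ) : ℤ) : ZMod r'))
        = f e * conj (nit t e) * (ψ₁ ((n / (e : ℤ) : ℤ) : ZMod (ℓ ^ k)) *
          ψ₂ ((n0 / (e : ℤ) : ℤ) : ZMod r')) *
          (ψ₁ ((e : ℤ) : ZMod (ℓ ^ k)) * conj (ψ₁ ((e : ℤ) : ZMod (ℓ ^ k)))) := by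
          rw [h4, mul_one]
      _ = _ := by ring

lemma psi_zero {ℓ k : ℕ} (hℓ : ℓ.Prime) (hk : 1 ≤ k) (ψ₁ : DirichletCharacter ℂ (ℓ ^ k)) (n : ℤ)
    (hn : (ℓ : ℤ) ∣ n) : ψ₁ (n : ZMod (ℓ ^ k)) = 0 := by
  rw [DirichletCharacter.apply_eq_zero_iff]
  intro h
  have h1 : IsCoprime (ℓ : ℤ) ((ℓ ^ k : ℕ) : ℤ) := IsCoprime.of_isCoprime_of_dvd_left h hn
  have h2 : (ℓ : ℤ) ∣ ((ℓ ^ k : ℕ) : ℤ) := by
    push_cast
    exact dvd_pow_self _ (by omega)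
  have h3 := h1.isUnit_of_dvd' dvd_rfl h2
  exact (Nat.prime_iff_prime_int.mp hℓ).not_isUnit h3

/-- the main estimate -/
lemma core {ℓ k r' D' p p' : ℕ} (hℓ : ℓ.Prime) (hk : 1 ≤ k) (hr' : ¬ ℓ ∣ r') (hD' : ¬ ℓ ∣ D')
    (hp : ¬ ℓ ∣ p) (hp' : ¬ ℓ ∣ p') (a : ℤ)
    (ψ : DirichletCharacter ℂ (ℓ ^ k * r'))
    (ψ₁ : DirichletCharacter ℂ (ℓ ^ k)) (ψ₂ : DirichletCharacter ℂ r')
    (hψ : ∀ n : ℤ, ψ (n : ZMod (ℓ ^ k * r')) = ψ₁ (n : ZMod (ℓ ^ k)) * ψ₂ (n : ZMod r'))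
    (f : ℕ → ℂ) (hf : MB f) (t : ℝ) (K0 : ℝ)
    (hK : ‖∑ m ∈ Finset.range (ℓ ^ k), EllTw.ch ψ₁ a (p * m) *
      conj (EllTw.ch ψ₁ a (p' * m))‖ ≤ K0) :
    ‖mean ((ℓ * D') * (ℓ ^ k * r')) (Lm f ψ t (ℓ * D') a p p')‖ ≤ (K0 + 2) / ℓ := by
  have hD0 : D' ≠ 0 := by
    rintro rfl
    exact hD' (dvd_zero _)
  have hr0 : r' ≠ 0 := by
    rintro rfl
    exact hr' (dvd_zero _)
  have hℓ0 : (0 : ℝ) < ℓ := by exact_mod_cast hℓ.pos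
  have hNZ : NeZero (ℓ ^ k) := ⟨pow_ne_zero _ hℓ.ne_zero⟩
  have hMℓ : ¬ ℓ ∣ D' * r' := by
    intro h
    rcases (Nat.Prime.dvd_mul hℓ).1 h with h1 | h1
    · exact hD' h1
    · exact hr' h1
  have hMc : (D' * r').Coprime (ℓ ^ k) :=
    Nat.Coprime.pow_right _ ((Nat.Prime.coprime_iff_not_dvd hℓ).2 hMℓ).symm
  have e1 : (ℓ * D') * (ℓ ^ k * r') = (D' * r') * (ℓ * ℓ ^ k) := by ring
  rw [e1]
  have hq : 1 ≤ ℓ * ℓ ^ k := Nat.mul_pos hℓ.pos (pow_pos hℓ.pos _)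
  have hM1 : 1 ≤ D' * r' := Nat.mul_pos (Nat.pos_of_ne_zero hD0) (Nat.pos_of_ne_zero hr0)
  have hK0 : 0 ≤ K0 := (norm_nonneg _).trans hK
  refine (prove_AVG (ℓ * ℓ ^ k) (D' * r') _ ((K0 + 2) * ℓ ^ k) hq hM1 ?_).trans ?_
  · intro m0 _
    obtain ⟨κ, hκ, Hκ⟩ := xz_prog hℓ hD' ψ ψ₁ ψ₂ hψ f hf t ((p : ℤ) * m0 + a) p
    obtain ⟨κ', hκ', Hκ'⟩ := xz_prog hℓ hD' ψ ψ₁ ψ₂ hψ f hf t ((p' : ℤ) * m0 + a) p'
    set M := D' * r' with hM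
    have en : ∀ (p s : ℕ), (p : ℤ) * ((m0 + M * s : ℕ) : ℤ) + a =
        ((p : ℤ) * m0 + a) + (M : ℕ) * ((p : ℤ) * (s : ℤ)) := by
      intro p s
      push_cast
      ring
    set Θ : ZMod (ℓ ^ k) → ℂ := fun x => ψ₁ ((p : ZMod (ℓ ^ k)) * x + (a : ZMod (ℓ ^ k))) *
      conj (ψ₁ ((p' : ZMod (ℓ ^ k)) * x + (a : ZMod (ℓ ^ k)))) with hΘ
    have hpt : ∀ s : ℕ, ‖Lm f ψ t (ℓ * D') a p p' (m0 + M * s) -
        κ * conj κ' * Θ ((m0 : ZMod (ℓ ^ k)) + (M : ZMod (ℓ ^ k)) * (s : ZMod (ℓ ^ k)))‖ ≤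
        (if (ℓ : ℤ) ∣ (p : ℤ) * ((m0 + M * s : ℕ) : ℤ) + a then (1 : ℝ) else 0) +
        (if (ℓ : ℤ) ∣ (p' : ℤ) * ((m0 + M * s : ℕ) : ℤ) + a then (1 : ℝ) else 0) := by
      intro s
      have c1 : ∀ p : ℕ, (((p : ℤ) * ((m0 + M * s : ℕ) : ℤ) + a : ℤ) : ZMod (ℓ ^ k)) =
          (p : ZMod (ℓ ^ k)) * ((m0 : ZMod (ℓ ^ k)) + (M : ZMod (ℓ ^ k)) * (s : ZMod (ℓ ^ k))) +
            (a : ZMod (ℓ ^ k)) := by
        intro p
        push_cast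
        ring
      have hΘs : Θ ((m0 : ZMod (ℓ ^ k)) + (M : ZMod (ℓ ^ k)) * (s : ZMod (ℓ ^ k))) =
          ψ₁ (((p : ℤ) * ((m0 + M * s : ℕ) : ℤ) + a : ℤ) : ZMod (ℓ ^ k)) *
          conj (ψ₁ (((p' : ℤ) * ((m0 + M * s : ℕ) : ℤ) + a : ℤ) : ZMod (ℓ ^ k))) := by
        rw [c1, c1]
      rw [hΘs]
      unfold Lm
      by_cases h1 : (ℓ : ℤ) ∣ (p : ℤ) * ((m0 + M * s : ℕ) : ℤ) + a
      · rw [psi_zero hℓ hk ψ₁ _ h1, zero_mul, mul_zero, sub_zero, if_pos h1, norm_mul,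
          RCLike.norm_conj]
        have h3 := mul_le_one₀ (XZ_.norm_xz (ψ := ψ) (t := t) (D := ℓ * D') hf
          ((p : ℤ) * ((m0 + M * s : ℕ) : ℤ) + a)) (norm_nonneg _)
          (XZ_.norm_xz (ψ := ψ) (t := t) (D := ℓ * D') hf
            ((p' : ℤ) * ((m0 + M * s : ℕ) : ℤ) + a))
        have h4 : (0 : ℝ) ≤ (if (ℓ : ℤ) ∣ (p' : ℤ) * ((m0 + M * s : ℕ) : ℤ) + a then (1 : ℝ)
          else 0) := by split_ifs <;> norm_num
        linarith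
      · by_cases h2 : (ℓ : ℤ) ∣ (p' : ℤ) * ((m0 + M * s : ℕ) : ℤ) + a
        · rw [psi_zero hℓ hk ψ₁ _ h2, map_zero, mul_zero, mul_zero, sub_zero, if_pos h2,
            if_neg h1, norm_mul, RCLike.norm_conj]
          have h3 := mul_le_one₀ (XZ_.norm_xz (ψ := ψ) (t := t) (D := ℓ * D') hf
            ((p : ℤ) * ((m0 + M * s : ℕ) : ℤ) + a)) (norm_nonneg _)
            (XZ_.norm_xz (ψ := ψ) (t := t) (D := ℓ * D') hf
              ((p' : ℤ) * ((m0 + M * s : ℕ) : ℤ) + a))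
          linarith
        · rw [if_neg h1, if_neg h2, add_zero]
          have g1 := Hκ s (by rw [← en]; exact h1)
          have g2 := Hκ' s (by rw [← en]; exact h2)
          rw [← en] at g1 g2
          rw [g1, g2, map_mul]
          have : κ * ψ₁ (((p : ℤ) * ((m0 + M * s : ℕ) : ℤ) + a : ℤ) : ZMod (ℓ ^ k)) *
              (conj κ' * conj (ψ₁ (((p' : ℤ) * ((m0 + M * s : ℕ) : ℤ) + a : ℤ) :
                ZMod (ℓ ^ k)))) - κ * conj κ' *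
              (ψ₁ (((p : ℤ) * ((m0 + M * s : ℕ) : ℤ) + a : ℤ) : ZMod (ℓ ^ k)) *
              conj (ψ₁ (((p' : ℤ) * ((m0 + M * s : ℕ) : ℤ) + a : ℤ) : ZMod (ℓ ^ k)))) = 0 := by
            ring
          rw [this, norm_zero]
    -- the complete sum
    have hS : ∑ s ∈ range (ℓ * ℓ ^ k),
        Θ ((m0 : ZMod (ℓ ^ k)) + (M : ZMod (ℓ ^ k)) * (s : ZMod (ℓ ^ k))) =
        ℓ * ∑ x : ZMod (ℓ ^ k), Θ x := by
      rw [mul_comm ℓ (ℓ ^ k), EllTw.MEAN_.sum_range_mul_per (a := ℓ ^ k)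
        (f := fun s : ℕ => Θ ((m0 : ZMod (ℓ ^ k)) + (M : ZMod (ℓ ^ k)) * (s : ZMod (ℓ ^ k)))),
        sum_aff Θ m0 M hMc]
      intro m
      simp only
      congr 1
      push_cast
      have : ((ℓ : ZMod (ℓ ^ k)) ^ k) = 0 := by
        have := ZMod.natCast_self (ℓ ^ k)
        push_cast at this
        exact this
      rw [this, add_zero]
    have hΘK : ‖∑ x : ZMod (ℓ ^ k), Θ x‖ ≤ K0 := by
      rw [← EllTw.RAM_.sum_range_zmod]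
      refine le_trans (le_of_eq ?_) hK
      congr 1
      refine Finset.sum_congr rfl fun m _ => ?_
      unfold EllTw.ch
      rw [hΘ]
      push_cast
      rfl
    have hfin : ‖∑ s ∈ range (ℓ * ℓ ^ k), (Lm f ψ t (ℓ * D') a p p' (m0 + M * s) -
        κ * conj κ' * Θ ((m0 : ZMod (ℓ ^ k)) + (M : ZMod (ℓ ^ k)) * (s : ZMod (ℓ ^ k))))‖ ≤
        2 * (ℓ : ℝ) ^ k := by
      refine (norm_sum_le _ _).trans ((Finset.sum_le_sum fun s _ => hpt s).trans ?_)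
      rw [Finset.sum_add_distrib]
      have := count hℓ p m0 M k a hp hMℓ
      have := count hℓ p' m0 M k a hp' hMℓ
      linarith
    rw [Finset.sum_sub_distrib, ← Finset.mul_sum, hS] at hfin
    have hb : ‖κ * conj κ' * (ℓ * ∑ x : ZMod (ℓ ^ k), Θ x)‖ ≤ ℓ * K0 := by
      rw [norm_mul, norm_mul, RCLike.norm_conj, norm_mul, Complex.norm_natCast]
      have h1 : ‖κ‖ * ‖κ'‖ ≤ 1 := mul_le_one₀ hκ (norm_nonneg _) hκ'
      have h2 : (ℓ : ℝ) * ‖∑ x : ZMod (ℓ ^ k), Θ x‖ ≤ ℓ * K0 :=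
        mul_le_mul_of_nonneg_left hΘK hℓ0.le
      calc _ ≤ 1 * (ℓ * K0) := mul_le_mul h1 h2 (by positivity) zero_le_one
        _ = _ := one_mul _
    have hℓk : (ℓ : ℝ) ≤ (ℓ : ℝ) ^ k := by
      calc (ℓ : ℝ) = (ℓ : ℝ) ^ 1 := (pow_one _).symm
        _ ≤ _ := pow_le_pow_right₀ (by exact_mod_cast hℓ.one_lt.le) hk
    have htri := norm_sub_norm_le (∑ s ∈ range (ℓ * ℓ ^ k), Lm f ψ t (ℓ * D') a p p' (m0 + M * s))
      (κ * conj κ' * (ℓ * ∑ x : ZMod (ℓ ^ k), Θ x))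
    have h5 : (ℓ : ℝ) * K0 ≤ (ℓ : ℝ) ^ k * K0 := mul_le_mul_of_nonneg_right hℓk hK0
    linarith
  · push_cast
    rw [div_le_div_iff₀ (by positivity) hℓ0]
    have : (K0 + 2) * (ℓ : ℝ) ^ k * ℓ = (K0 + 2) * (ℓ * (ℓ : ℝ) ^ k) := by ring
    rw [this]

lemma dd_split {z V r ℓ : ℕ} (hr : 1 ≤ r) (hℓ : ℓ.Prime) (hℓr : ℓ ∣ r) (hz : z < ℓ) :
    ∃ D' : ℕ, ¬ ℓ ∣ D' ∧ DD z V r = ℓ * D' := by
  refine ⟨Rep.Q1 z V * ∏ q ∈ (r.primeFactors.filter (fun q => z < q)).erase ℓ, q, ?_, ?_⟩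
  · intro h
    rcases (Nat.Prime.dvd_mul hℓ).1 h with h1 | h1
    · exact absurd (Rep.le_of_dvd_Q1 hℓ h1) (not_le.2 hz)
    · rw [(Nat.Prime.prime hℓ).dvd_finsetProd_iff] at h1
      obtain ⟨q, hq, hlq⟩ := h1
      rw [Finset.mem_erase, Finset.mem_filter] at hq
      exact hq.1 ((Nat.prime_dvd_prime_iff_eq hℓ (Nat.prime_of_mem_primeFactors hq.2.1)).1 hlq).symm
  · unfold DD
    rw [← Finset.mul_prod_erase (r.primeFactors.filter (fun q => z < q)) (fun q => q)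
      (a := ℓ) (Finset.mem_filter.2 ⟨Nat.mem_primeFactors.2 ⟨hℓ, hℓr, by omega⟩, hz⟩)]
    ring

end MEA_

theorem prove_MEA (h1 : T_FAC) (h2 : EllTw.T_RAM) : T_MEA := by
  intro a p p' ha hp hp' hne
  obtain ⟨K0, hK0⟩ := h2 a p p' ha hp hp' hne
  refine ⟨|K0| + 2, by positivity, ?_⟩
  intro z V r ℓ ψ f t hr hψ hf hℓ hℓr hz hpz hpz'
  obtain ⟨D', hD', hD⟩ := MEA_.dd_split (V := V) hr hℓ hℓr hz
  obtain ⟨k, r', hr', hrk⟩ := Nat.exists_eq_pow_mul_and_not_dvd (n := r) (by omega) ℓ hℓ.ne_one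
  have hk : 1 ≤ k := by
    rcases Nat.eq_zero_or_pos k with h | h
    · rw [h, pow_zero, one_mul] at hrk
      rw [hrk] at hℓr
      exact absurd hℓr hr'
    · exact h
  subst hrk
  rw [hD]
  have hr0 : r' ≠ 0 := by
    rintro rfl
    exact hr' (dvd_zero _)
  obtain ⟨ψ₁, ψ₂, hψ₁, hfac⟩ := h1 (ℓ ^ k) r' ψ
    (Nat.one_le_iff_ne_zero.2 (pow_ne_zero _ hℓ.ne_zero))
    (Nat.one_le_iff_ne_zero.2 hr0)
    (Nat.Coprime.pow_left _ ((Nat.Prime.coprime_iff_not_dvd hℓ).2 hr')) hψ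
  have hnp : ¬ ℓ ∣ p := fun h => by
    have := Nat.le_of_dvd hp.pos h
    omega
  have hnp' : ¬ ℓ ∣ p' := fun h => by
    have := Nat.le_of_dvd hp'.pos h
    omega
  refine MEA_.core hℓ hk hr' hD' hnp hnp' a ψ ψ₁ ψ₂ hfac f hf t |K0| ?_
  exact (hK0 (ℓ ^ k) ψ₁ (Nat.one_le_iff_ne_zero.2 (pow_ne_zero _ hℓ.ne_zero)) hψ₁).trans
    (le_abs_self _)

end Pool.Agent.TPM
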