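import Pool.Agent.TPM.Targets

set_option autoImplicit false

/-! TPM-MEB: the mean of the cross product when the conductor is `z`-smooth. -/

namespace Pool.Agent.TPM

open Finset Filter Pool.Agent.Ell
open scoped BigOperators ComplexConjugate

namespace MEB_

lemma gcd_pos {D : ℕ} (hD : 1 ≤ D) (n : ℤ) : 0 < Int.gcd n D :=
  Int.gcd_pos_of_ne_zero_right _ (by exact_mod_cast (by omega : D ≠ 0))

lemma DD_eq {z V r : ℕ} (h : ∀ ℓ : ℕ, ℓ.Prime → ℓ ∣ r → ℓ ≤ z) : DD z V r = Rep.Q1 z V := by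
  unfold DD
  have : r.primeFactors.filter (fun ℓ => z < ℓ) = ∅ := by
    apply Finset.filter_eq_empty_iff.2
    intro ℓ hℓ
    exact not_lt.2 (h ℓ (Nat.prime_of_mem_primeFactors hℓ) (Nat.dvd_of_mem_primeFactors hℓ))
  rw [this, Finset.prod_empty, mul_one]

/-- the determinant does not vanish -/
lemma det_ne {a : ℤ} {p p' D m0 : ℕ} (ha : a ≠ 0) (hpp : p ≠ p') (hD : 1 ≤ D) :
    let n0 : ℤ := (p : ℤ) * m0 + a
    let n0' : ℤ := (p' : ℤ) * m0 + a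
    (n0 / (Int.gcd n0 D : ℤ)) * ((p' : ℤ) * ((D : ℤ) / (Int.gcd n0' D : ℤ))) -
      (n0' / (Int.gcd n0' D : ℤ)) * ((p : ℤ) * ((D : ℤ) / (Int.gcd n0 D : ℤ))) ≠ 0 := by
  intro n0 n0'
  have he := gcd_pos hD n0
  have he' := gcd_pos hD n0'
  obtain ⟨u, hu⟩ : ((Int.gcd n0 D : ℕ) : ℤ) ∣ n0 := Int.gcd_dvd_left _ _
  obtain ⟨v, hv⟩ : ((Int.gcd n0 D : ℕ) : ℤ) ∣ (D : ℤ) := Int.gcd_dvd_right _ _
  obtain ⟨u', hu'⟩ : ((Int.gcd n0' D : ℕ) : ℤ) ∣ n0' := Int.gcd_dvd_left _ _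
  obtain ⟨v', hv'⟩ : ((Int.gcd n0' D : ℕ) : ℤ) ∣ (D : ℤ) := Int.gcd_dvd_right _ _
  set e : ℤ := ((Int.gcd n0 D : ℕ) : ℤ) with hedef
  set e' : ℤ := ((Int.gcd n0' D : ℕ) : ℤ) with hedef'
  have he0 : e ≠ 0 := by
    rw [hedef]; exact_mod_cast he.ne'
  have he0' : e' ≠ 0 := by
    rw [hedef']; exact_mod_cast he'.ne'
  have e1 : n0 / e = u := by
    rw [hu]; exact Int.mul_ediv_cancel_left _ he0
  have e2 : (D : ℤ) / e = v := by
    rw [hv]; exact Int.mul_ediv_cancel_left _ he0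
  have e3 : n0' / e' = u' := by
    rw [hu']; exact Int.mul_ediv_cancel_left _ he0'
  have e4 : (D : ℤ) / e' = v' := by
    rw [hv']; exact Int.mul_ediv_cancel_left _ he0'
  rw [e1, e2, e3, e4]
  intro h
  have key : e * e' * (u * ((p' : ℤ) * v') - u' * ((p : ℤ) * v)) =
      (D : ℤ) * a * ((p' : ℤ) - p) := by
    have : e * e' * (u * ((p' : ℤ) * v') - u' * ((p : ℤ) * v)) =
        (e * u) * p' * (e' * v') - (e' * u') * p * (e * v) := by ring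
    rw [this, ← hu, ← hv', ← hu', ← hv]
    simp only [n0, n0']
    ring
  rw [h, mul_zero] at key
  have hD0 : (D : ℤ) ≠ 0 := by exact_mod_cast (by omega : D ≠ 0)
  have hp0 : (p' : ℤ) - p ≠ 0 := by
    intro h0
    apply hpp
    have : (p : ℤ) = p' := by linarith
    exact_mod_cast this
  exact (mul_ne_zero (mul_ne_zero hD0 ha) hp0) key.symm

end MEB_

theorem prove_MEB (h1 : T_RAM2) (h2 : T_XZ) (h3 : T_AVG) : T_MEB := by
  intro a p p' z V ha hp hp' hpp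
  have hQ : 1 ≤ Rep.Q1 z V := Rep.Q1_pos z V
  set D := Rep.Q1 z V with hDdef
  have hK : ∀ m0 : ℕ, ∃ K : ℝ, ∀ (r : ℕ) (ψ : DirichletCharacter ℂ r), 1 ≤ r → ψ.IsPrimitive →
      ‖∑ m ∈ Finset.range r,
        ψ ((((p : ℤ) * ((D : ℤ) / (Int.gcd ((p : ℤ) * m0 + a) D : ℤ))) * m +
          ((p : ℤ) * m0 + a) / (Int.gcd ((p : ℤ) * m0 + a) D : ℤ) : ℤ) : ZMod r) *
        conj (ψ ((((p' : ℤ) * ((D : ℤ) / (Int.gcd ((p' : ℤ) * m0 + a) D : ℤ))) * m +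
          ((p' : ℤ) * m0 + a) / (Int.gcd ((p' : ℤ) * m0 + a) D : ℤ) : ℤ) : ZMod r))‖ ≤ K := by
    intro m0
    have hdiv : ∀ n : ℤ, (D : ℤ) / (Int.gcd n D : ℤ) ≠ 0 := by
      intro n
      have he0 : ((Int.gcd n D : ℕ) : ℤ) ≠ 0 := by
        exact_mod_cast (MEB_.gcd_pos hQ n).ne'
      obtain ⟨v, hv⟩ : ((Int.gcd n D : ℕ) : ℤ) ∣ (D : ℤ) := Int.gcd_dvd_right _ _
      generalize ((Int.gcd n D : ℕ) : ℤ) = e at he0 hv ⊢
      intro h0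
      rw [hv, Int.mul_ediv_cancel_left _ he0] at h0
      rw [h0, mul_zero] at hv
      have : (D : ℤ) ≠ 0 := by exact_mod_cast (by omega : D ≠ 0)
      exact this hv
    refine h1 _ _ _ _ (mul_ne_zero (by exact_mod_cast hp.pos.ne') (hdiv _))
      (mul_ne_zero (by exact_mod_cast hp'.pos.ne') (hdiv _)) ?_
    exact MEB_.det_ne ha hpp hQ
  choose K hK using hK
  refine ⟨∑ m0 ∈ Finset.range D, (|K m0| + 1), ?_, ?_⟩
  · apply Finset.sum_pos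
    · intro i _
      positivity
    · exact ⟨0, Finset.mem_range.2 (by omega)⟩
  intro r ψ f t hr hψ hf hsm
  obtain ⟨-, h2b⟩ := h2
  obtain ⟨-, -, -, -, -, hxz⟩ := h2b r ψ f t D hf hQ
  have hxn : ∀ n : ℤ, ‖f (Int.gcd n D) * conj (nit t (Int.gcd n D))‖ ≤ 1 := by
    intro n
    rw [norm_mul, RCLike.norm_conj, Rep.nit_norm t (MEB_.gcd_pos hQ n), mul_one]
    exact hf.bd _
  rw [MEB_.DD_eq hsm, ← hDdef]
  apply h3 r D _ _ hr hQ
  intro m0 hm0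
  have hle : |K m0| + 1 ≤ ∑ m0 ∈ Finset.range D, (|K m0| + 1) :=
    Finset.single_le_sum (f := fun m0 => |K m0| + 1) (fun i _ => by positivity)
      (Finset.mem_range.2 hm0)
  have hsum : ∑ s ∈ Finset.range r, Lm f ψ t D a p p' (m0 + D * s) =
      (f (Int.gcd ((p : ℤ) * m0 + a) D) * conj (nit t (Int.gcd ((p : ℤ) * m0 + a) D))) *
      conj (f (Int.gcd ((p' : ℤ) * m0 + a) D) *
        conj (nit t (Int.gcd ((p' : ℤ) * m0 + a) D))) *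
      ∑ m ∈ Finset.range r,
        ψ ((((p : ℤ) * ((D : ℤ) / (Int.gcd ((p : ℤ) * m0 + a) D : ℤ))) * m +
          ((p : ℤ) * m0 + a) / (Int.gcd ((p : ℤ) * m0 + a) D : ℤ) : ℤ) : ZMod r) *
        conj (ψ ((((p' : ℤ) * ((D : ℤ) / (Int.gcd ((p' : ℤ) * m0 + a) D : ℤ))) * m +
          ((p' : ℤ) * m0 + a) / (Int.gcd ((p' : ℤ) * m0 + a) D : ℤ) : ℤ) : ZMod r)) := by
    rw [Finset.mul_sum]
    refine Finset.sum_congr rfl fun s _ => ?_
    unfold Lm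
    have e1 : (p : ℤ) * ((m0 + D * s : ℕ) : ℤ) + a =
        ((p : ℤ) * m0 + a) + (D : ℤ) * ((p : ℤ) * s) := by
      push_cast; ring
    have e2 : (p' : ℤ) * ((m0 + D * s : ℕ) : ℤ) + a =
        ((p' : ℤ) * m0 + a) + (D : ℤ) * ((p' : ℤ) * s) := by
      push_cast; ring
    rw [e1, e2, hxz, hxz]
    have e3 : ((p : ℤ) * m0 + a) / (Int.gcd ((p : ℤ) * m0 + a) D : ℤ) +
        (D : ℤ) / (Int.gcd ((p : ℤ) * m0 + a) D : ℤ) * ((p : ℤ) * s) =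
        ((p : ℤ) * ((D : ℤ) / (Int.gcd ((p : ℤ) * m0 + a) D : ℤ))) * s +
          ((p : ℤ) * m0 + a) / (Int.gcd ((p : ℤ) * m0 + a) D : ℤ) := by ring
    have e4 : ((p' : ℤ) * m0 + a) / (Int.gcd ((p' : ℤ) * m0 + a) D : ℤ) +
        (D : ℤ) / (Int.gcd ((p' : ℤ) * m0 + a) D : ℤ) * ((p' : ℤ) * s) =
        ((p' : ℤ) * ((D : ℤ) / (Int.gcd ((p' : ℤ) * m0 + a) D : ℤ))) * s +
          ((p' : ℤ) * m0 + a) / (Int.gcd ((p' : ℤ) * m0 + a) D : ℤ) := by ring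
    rw [e3, e4, map_mul]
    ring
  rw [hsum, norm_mul]
  have hc : ‖(f (Int.gcd ((p : ℤ) * m0 + a) D) *
      conj (nit t (Int.gcd ((p : ℤ) * m0 + a) D))) *
      conj (f (Int.gcd ((p' : ℤ) * m0 + a) D) *
        conj (nit t (Int.gcd ((p' : ℤ) * m0 + a) D)))‖ ≤ 1 := by
    rw [norm_mul, RCLike.norm_conj]
    exact mul_le_one₀ (hxn _) (norm_nonneg _) (hxn _)
  calc _ ≤ 1 * K m0 := mul_le_mul hc (hK m0 r ψ hr hψ) (norm_nonneg _) zero_le_one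
    _ ≤ |K m0| + 1 := by rw [one_mul]; linarith [le_abs_self (K m0)]
    _ ≤ _ := hle

end Pool.Agent.TPM
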