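import Pool.Agent.TPM.Targets
import Pool.Agent.Ell.KeyA

set_option autoImplicit false

/-! TPM-XZ, TPM-AVG: basic facts. -/

namespace Pool.Agent.TPM

open Finset Filter Pool.Agent.Ell
open scoped BigOperators ComplexConjugate

namespace XZ_

lemma gcd_pos {D : ℕ} (hD : 1 ≤ D) (n : ℤ) : 0 < Int.gcd n D :=
  Int.gcd_pos_of_ne_zero_right _ (by exact_mod_cast (by omega : D ≠ 0))

lemma norm_xz {r : ℕ} {ψ : DirichletCharacter ℂ r} {f : ℕ → ℂ} {t : ℝ} {D : ℕ} (hf : MB f)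
    (n : ℤ) : ‖xz f ψ t D n‖ ≤ 1 := by
  unfold xz
  rw [norm_mul, norm_mul, RCLike.norm_conj]
  exact mul_le_one₀ (mul_le_one₀ (hf.bd _) (norm_nonneg _) (KeyA.norm_nit _ _)) (norm_nonneg _)
    (DirichletCharacter.norm_le_one _ _)

lemma norm_zt {r : ℕ} {ψ : DirichletCharacter ℂ r} {f : ℕ → ℂ} {t : ℝ} (hf : MB f) (ℓ : ℕ) :
    ‖zt f ψ t ℓ‖ ≤ 1 := by
  unfold zt
  split_ifs
  · simp
  · rw [norm_mul, RCLike.norm_conj, norm_mul]
    exact mul_le_one₀ (hf.bd _) (by positivity) (mul_le_one₀ (DirichletCharacter.norm_le_one _ _)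
      (norm_nonneg _) (KeyA.norm_nit _ _))

lemma norm_Gf {r : ℕ} {ψ : DirichletCharacter ℂ r} {f : ℕ → ℂ} {t : ℝ} {D : ℕ} (hf : MB f)
    (z w n : ℕ) : ‖Gf f ψ t D z w n‖ ≤ 1 := by
  unfold Gf
  rw [norm_mul, norm_mul]
  exact mul_le_one₀ (KeyA.norm_nit _ _) (by positivity) (mul_le_one₀ (norm_xz hf _) (norm_nonneg _)
    (KeyA.norm_prod_le_one _ _ (fun ℓ _ => norm_zt hf ℓ)))

lemma xz_add {r : ℕ} (ψ : DirichletCharacter ℂ r) (f : ℕ → ℂ) (t : ℝ) {D : ℕ}
    (n s : ℤ) : xz f ψ t D (n + D * s) = f (Int.gcd n D) * conj (nit t (Int.gcd n D)) *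
    ψ ((n / (Int.gcd n D : ℤ) + (D : ℤ) / (Int.gcd n D : ℤ) * s : ℤ) : ZMod r) := by
  unfold xz
  have h1 : Int.gcd (n + D * s) D = Int.gcd n D := by
    rw [Int.gcd_add_mul_left_left]
  rw [h1]
  have h2 : (n + D * s) / (Int.gcd n D : ℤ) =
      n / (Int.gcd n D : ℤ) + (D : ℤ) / (Int.gcd n D : ℤ) * s := by
    have hdn : ((Int.gcd n D : ℕ) : ℤ) ∣ n := Int.gcd_dvd_left _ _
    have hdD : ((Int.gcd n D : ℕ) : ℤ) ∣ (D : ℤ) := Int.gcd_dvd_right _ _
    rw [Int.add_ediv_of_dvd_left hdn, mul_comm (D : ℤ) s, Int.mul_ediv_assoc _ hdD, mul_comm s]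
  rw [h2]

end XZ_

theorem prove_XZ : T_XZ := by
  refine ⟨?_, ?_⟩
  · intro z V r hr
    have hQ := Rep.Q1_pos z V
    have hsub : (∏ ℓ ∈ r.primeFactors.filter (fun ℓ => z < ℓ), ℓ) ∣ r :=
      (Finset.prod_dvd_prod_of_subset _ _ _ (Finset.filter_subset _ _)).trans
        (Nat.prod_primeFactors_dvd r)
    have hL : 0 < ∏ ℓ ∈ r.primeFactors.filter (fun ℓ => z < ℓ), ℓ := Nat.pos_of_dvd_of_pos hsub hr
    refine ⟨Nat.mul_pos hQ hL, Nat.mul_le_mul_left _ (Nat.le_of_dvd hr hsub), ?_⟩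
    intro ℓ hℓ hz
    unfold DD
    constructor
    · intro h
      rcases (Nat.Prime.dvd_mul hℓ).1 h with h1 | h1
      · exact absurd (Rep.le_of_dvd_Q1 hℓ h1) (not_le.2 hz)
      · exact h1.trans hsub
    · intro h
      refine Dvd.dvd.mul_left ?_ _
      exact Finset.dvd_prod_of_mem (fun ℓ => ℓ)
        (Finset.mem_filter.2 ⟨Nat.mem_primeFactors.2 ⟨hℓ, h, by omega⟩, hz⟩)
  · intro r ψ f t D hf hD
    refine ⟨fun n => XZ_.norm_xz hf n, fun ℓ _ => XZ_.norm_zt hf ℓ,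
      fun z w n => XZ_.norm_Gf hf z w n, ?_, ?_, fun n s => XZ_.xz_add ψ f t n s⟩
    · intro a p p' m
      have key : ∀ p : ℕ, xz f ψ t D ((p : ℤ) * ((m + D * r : ℕ) : ℤ) + a) =
          xz f ψ t D ((p : ℤ) * m + a) := by
        intro p
        have h1 : (p : ℤ) * ((m + D * r : ℕ) : ℤ) + a = ((p : ℤ) * m + a) + D * (r * p) := by
          push_cast
          ring
        have e1 := XZ_.xz_add ψ f t ((p : ℤ) * m + a) (r * p) (D := D)
        have e2 := XZ_.xz_add ψ f t ((p : ℤ) * m + a) 0 (D := D)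
        rw [mul_zero, add_zero] at e2
        rw [h1, e1, e2]
        congr 2
        push_cast
        simp
      unfold Lm
      rw [key, key]
    · intro a p p' m
      unfold Lm
      rw [norm_mul, RCLike.norm_conj]
      exact mul_le_one₀ (XZ_.norm_xz hf _) (norm_nonneg _) (XZ_.norm_xz hf _)

theorem prove_AVG : T_AVG := by
  intro q M F B hq hM h
  have hq' : (0 : ℝ) < q := by exact_mod_cast hq
  have hM' : (0 : ℝ) < M := by exact_mod_cast hM
  have key : ∀ q : ℕ, ∑ m ∈ Finset.range (M * q), F m =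
      ∑ m0 ∈ Finset.range M, ∑ s ∈ Finset.range q, F (m0 + M * s) := by
    intro q
    induction q with
    | zero => simp
    | succ q ih =>
      rw [Nat.mul_succ, Finset.sum_range_add, ih, ← Finset.sum_add_distrib]
      refine Finset.sum_congr rfl (fun m0 _ => ?_)
      rw [Finset.sum_range_succ, add_comm (M * q) m0]
  unfold mean
  rw [key, norm_div, Complex.norm_natCast]
  push_cast
  rw [div_le_div_iff₀ (by positivity) hq']
  have h1 : ‖∑ m0 ∈ Finset.range M, ∑ s ∈ Finset.range q, F (m0 + M * s)‖ ≤ M * B := by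
    refine (norm_sum_le _ _).trans ?_
    refine (Finset.sum_le_sum (fun m0 hm0 => h m0 (Finset.mem_range.1 hm0))).trans ?_
    simp
  calc _ ≤ (M * B) * q := mul_le_mul_of_nonneg_right h1 hq'.le
    _ = B * (M * q) := by ring

end Pool.Agent.TPM
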