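import Pool.Agent.TPM.Targets

/-! # TPM: factorization of a primitive character -/

set_option autoImplicit false

namespace Pool.Agent.TPM

open Finset Filter Pool.Agent.Ell
open scoped BigOperators ComplexConjugate

namespace FAC_

variable {r₁ r₂ : ℕ}

/-- the first component -/
noncomputable def p1 (h : r₁.Coprime r₂) (ψ : DirichletCharacter ℂ (r₁ * r₂)) :
    DirichletCharacter ℂ r₁ where
  toFun x := ψ ((ZMod.chineseRemainder h).symm (x, 1))
  map_one' := by
    have e : ((1 : ZMod r₁), (1 : ZMod r₂)) = 1 := rfl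
    rw [e, map_one, map_one]
  map_mul' x y := by
    have e : ((x * y : ZMod r₁), (1 : ZMod r₂)) = (x, 1) * (y, 1) := by
      rw [Prod.mk_mul_mk, mul_one]
    rw [e, map_mul, map_mul]
  map_nonunit' x hx := by
    refine MulChar.map_nonunit ψ fun hu => hx ?_
    have h1 : IsUnit ((ZMod.chineseRemainder h) ((ZMod.chineseRemainder h).symm (x, 1))) :=
      hu.map (ZMod.chineseRemainder h)
    rw [RingEquiv.apply_symm_apply, Prod.isUnit_iff] at h1
    exact h1.1

/-- the second component -/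
noncomputable def p2 (h : r₁.Coprime r₂) (ψ : DirichletCharacter ℂ (r₁ * r₂)) :
    DirichletCharacter ℂ r₂ where
  toFun x := ψ ((ZMod.chineseRemainder h).symm (1, x))
  map_one' := by
    have e : ((1 : ZMod r₁), (1 : ZMod r₂)) = 1 := rfl
    rw [e, map_one, map_one]
  map_mul' x y := by
    have e : ((1 : ZMod r₁), (x * y : ZMod r₂)) = (1, x) * (1, y) := by
      rw [Prod.mk_mul_mk, mul_one]
    rw [e, map_mul, map_mul]
  map_nonunit' x hx := by
    refine MulChar.map_nonunit ψ fun hu => hx ?_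
    have h1 : IsUnit ((ZMod.chineseRemainder h) ((ZMod.chineseRemainder h).symm (1, x))) :=
      hu.map (ZMod.chineseRemainder h)
    rw [RingEquiv.apply_symm_apply, Prod.isUnit_iff] at h1
    exact h1.2

theorem p1_apply (h : r₁.Coprime r₂) (ψ : DirichletCharacter ℂ (r₁ * r₂)) (x : ZMod r₁) :
    p1 h ψ x = ψ ((ZMod.chineseRemainder h).symm (x, 1)) := rfl

theorem p2_apply (h : r₁.Coprime r₂) (ψ : DirichletCharacter ℂ (r₁ * r₂)) (x : ZMod r₂) :
    p2 h ψ x = ψ ((ZMod.chineseRemainder h).symm (1, x)) := rfl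

theorem split (h : r₁.Coprime r₂) (ψ : DirichletCharacter ℂ (r₁ * r₂)) (n : ℤ) :
    ψ (n : ZMod (r₁ * r₂)) = p1 h ψ (n : ZMod r₁) * p2 h ψ (n : ZMod r₂) := by
  rw [p1_apply, p2_apply, ← map_mul, ← map_mul, Prod.mk_mul_mk, mul_one, one_mul]
  congr 1
  rw [RingEquiv.eq_symm_apply, map_intCast]
  rfl

theorem fst_eq (h : r₁.Coprime r₂) (u : ZMod (r₁ * r₂)) :
    ((ZMod.chineseRemainder h) u).1 = ZMod.castHom (dvd_mul_right r₁ r₂) (ZMod r₁) u := by
  have e : (RingHom.fst (ZMod r₁) (ZMod r₂)).comp (ZMod.chineseRemainder h).toRingHom =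
      ZMod.castHom (dvd_mul_right r₁ r₂) (ZMod r₁) := Subsingleton.elim _ _
  rw [← e]
  rfl

theorem snd_eq (h : r₁.Coprime r₂) (u : ZMod (r₁ * r₂)) :
    ((ZMod.chineseRemainder h) u).2 = ZMod.castHom (dvd_mul_left r₂ r₁) (ZMod r₂) u := by
  have e : (RingHom.snd (ZMod r₁) (ZMod r₂)).comp (ZMod.chineseRemainder h).toRingHom =
      ZMod.castHom (dvd_mul_left r₂ r₁) (ZMod r₂) := Subsingleton.elim _ _
  rw [← e]
  rfl

theorem prim (h1 : 1 ≤ r₁) (h2 : 1 ≤ r₂) (h : r₁.Coprime r₂)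
    (ψ : DirichletCharacter ℂ (r₁ * r₂)) (hψ : ψ.IsPrimitive) : (p1 h ψ).IsPrimitive := by
  have i1 : NeZero r₁ := ⟨by omega⟩
  have i2 : NeZero r₂ := ⟨by omega⟩
  have i3 : NeZero (r₁ * r₂) := ⟨Nat.mul_ne_zero (by omega) (by omega)⟩
  set d := (p1 h ψ).conductor with hd
  have hdr : d ∣ r₁ := (p1 h ψ).conductor_dvd_level
  have hf : (p1 h ψ).FactorsThrough d := (p1 h ψ).factorsThrough_conductor
  rw [DirichletCharacter.factorsThrough_iff_ker_unitsMap hdr] at hf
  have hdd : d * r₂ ∣ r₁ * r₂ := Nat.mul_dvd_mul_right hdr r₂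
  have hF : ψ.FactorsThrough (d * r₂) := by
    rw [DirichletCharacter.factorsThrough_iff_ker_unitsMap hdd]
    intro u hu
    rw [MonoidHom.mem_ker] at hu ⊢
    have hu1 : ZMod.castHom hdd (ZMod (d * r₂)) (u : ZMod (r₁ * r₂)) = 1 := by
      have := congrArg Units.val hu
      simpa [ZMod.unitsMap_def] using this
    have ha : (((ZMod.unitsMap (dvd_mul_right r₁ r₂)) u : (ZMod r₁)ˣ) : ZMod r₁) =
        ((ZMod.chineseRemainder h) (u : ZMod (r₁ * r₂))).1 := by
      rw [fst_eq]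
      simp [ZMod.unitsMap_def]
    have hsnd : ((ZMod.chineseRemainder h) (u : ZMod (r₁ * r₂))).2 = 1 := by
      rw [snd_eq]
      have e : ZMod.castHom (dvd_mul_left r₂ r₁) (ZMod r₂) =
          (ZMod.castHom (dvd_mul_left r₂ d) (ZMod r₂)).comp
            (ZMod.castHom hdd (ZMod (d * r₂))) := Subsingleton.elim _ _
      rw [e, RingHom.comp_apply, hu1, map_one]
    have hker : (ZMod.unitsMap (dvd_mul_right r₁ r₂)) u ∈ (ZMod.unitsMap hdr).ker := by
      rw [MonoidHom.mem_ker]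
      apply Units.ext
      have e : (ZMod.castHom hdr (ZMod d)).comp
            (ZMod.castHom (dvd_mul_right r₁ r₂) (ZMod r₁)) =
          (ZMod.castHom (dvd_mul_right d r₂) (ZMod d)).comp
            (ZMod.castHom hdd (ZMod (d * r₂))) := Subsingleton.elim _ _
      have e2 := RingHom.congr_fun e (u : ZMod (r₁ * r₂))
      rw [RingHom.comp_apply, RingHom.comp_apply, hu1, map_one] at e2
      simpa [ZMod.unitsMap_def] using e2
    have h3 := hf hker
    rw [MonoidHom.mem_ker] at h3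
    have h4 : p1 h ψ ((ZMod.chineseRemainder h) (u : ZMod (r₁ * r₂))).1 = 1 := by
      rw [← ha, ← MulChar.coe_toUnitHom, h3, Units.val_one]
    rw [p1_apply] at h4
    have h5 : ((((ZMod.chineseRemainder h) (u : ZMod (r₁ * r₂))).1, (1 : ZMod r₂)) :
        ZMod r₁ × ZMod r₂) = (ZMod.chineseRemainder h) (u : ZMod (r₁ * r₂)) :=
      Prod.ext rfl hsnd.symm
    rw [h5, RingEquiv.symm_apply_apply] at h4
    apply Units.ext
    rw [MulChar.coe_toUnitHom, h4, Units.val_one]
  have hc := DirichletCharacter.conductor_dvd_of_mem_conductorSet ψ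
    ((DirichletCharacter.mem_conductorSet_iff ψ).mpr hF)
  have hc1 : ψ.conductor = r₁ * r₂ := hψ
  rw [hc1] at hc
  have hc2 : r₁ ∣ d := Nat.dvd_of_mul_dvd_mul_right (by omega) hc
  exact Nat.dvd_antisymm hdr hc2

end FAC_

theorem prove_FAC : T_FAC := by
  intro r₁ r₂ ψ h1 h2 h hψ
  exact ⟨FAC_.p1 h ψ, FAC_.p2 h ψ, FAC_.prim h1 h2 h ψ hψ, FAC_.split h ψ⟩

end Pool.Agent.TPM
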