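import Pool.Agent.TPM.Targets
import Pool.Agent.EllTw.RAM

set_option autoImplicit false

/-! Job TPM-RAM2: the correlation of a primitive character along two linear forms is bounded. -/

namespace Pool.Agent.TPM

open Finset Filter Pool.Agent.Ell
open scoped BigOperators ComplexConjugate

namespace RAM2_

open Pool.Agent.EllTw.RAM_ (geom mob sum_range_zmod G gs GG e)

/-- Ramanujan sums: every common divisor of `r` and `h` divides `D` -/
lemma ram {r : ℕ} [NeZero r] {h D : ℤ} (hD : D ≠ 0)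
    (hhD : ∀ d : ℕ, d ∣ r → (d : ℤ) ∣ h → (d : ℤ) ∣ D) :
    ‖∑ b ∈ range r, if b.Coprime r then e r ((b : ZMod r) * (h : ZMod r)) else 0‖ ≤
      ((D.natAbs : ℝ) + 1) ^ 2 := by
  have hr0 : r ≠ 0 := NeZero.ne r
  have h1 : ∑ b ∈ range r, (if b.Coprime r then e r ((b : ZMod r) * (h : ZMod r)) else 0) =
      ∑ d ∈ r.divisors, (ArithmeticFunction.moebius d : ℂ) *
        ∑ j ∈ range (r / d), e r (((d * j : ℕ) : ZMod r) * (h : ZMod r)) := by
    have h2 : ∀ b ∈ range r, (if b.Coprime r then e r ((b : ZMod r) * (h : ZMod r)) else 0) =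
        ∑ d ∈ r.divisors, if d ∣ b then (ArithmeticFunction.moebius d : ℂ) *
          e r ((b : ZMod r) * (h : ZMod r)) else 0 := by
      intro b _
      have hg : b.gcd r ≠ 0 := Nat.gcd_ne_zero_right hr0
      have h3 : ∑ d ∈ r.divisors, (if d ∣ b then (ArithmeticFunction.moebius d : ℂ) else 0) =
          if b.Coprime r then 1 else 0 := by
        rw [← Finset.sum_filter]
        have h4 : r.divisors.filter (fun d => d ∣ b) = (b.gcd r).divisors := by
          ext d
          simp only [Finset.mem_filter, Nat.mem_divisors, Nat.dvd_gcd_iff]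
          constructor
          · rintro ⟨⟨h5, _⟩, h6⟩
            exact ⟨⟨h6, h5⟩, hg⟩
          · rintro ⟨⟨h5, h6⟩, _⟩
            exact ⟨⟨h6, hr0⟩, h5⟩
        rw [h4, mob]
      have h5 : ∀ d ∈ r.divisors, (if d ∣ b then (ArithmeticFunction.moebius d : ℂ) *
          e r ((b : ZMod r) * (h : ZMod r)) else 0) =
          (if d ∣ b then (ArithmeticFunction.moebius d : ℂ) else 0) *
            e r ((b : ZMod r) * (h : ZMod r)) := by
        intro d _
        split_ifs <;> simp
      rw [Finset.sum_congr rfl h5, ← Finset.sum_mul, h3]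
      split_ifs <;> simp
    rw [Finset.sum_congr rfl h2, Finset.sum_comm]
    refine Finset.sum_congr rfl fun d hd => ?_
    have hdr : d ∣ r := Nat.dvd_of_mem_divisors hd
    have hd0 : 0 < d := Nat.pos_of_mem_divisors hd
    rw [Finset.mul_sum, ← Finset.sum_filter]
    symm
    refine Finset.sum_bij (fun j _ => d * j) ?_ ?_ ?_ ?_
    · intro j hj
      rw [Finset.mem_filter, Finset.mem_range]
      refine ⟨?_, Dvd.intro _ rfl⟩
      rw [Finset.mem_range] at hj
      calc d * j < d * (r / d) := (Nat.mul_lt_mul_left hd0).mpr hj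
        _ = r := Nat.mul_div_cancel' hdr
    · intro j _ j' _ hjj
      exact Nat.eq_of_mul_eq_mul_left hd0 hjj
    · intro b hb
      rw [Finset.mem_filter, Finset.mem_range] at hb
      obtain ⟨hb1, ⟨j, rfl⟩⟩ := hb
      refine ⟨j, ?_, rfl⟩
      rw [Finset.mem_range, Nat.lt_div_iff_mul_lt' hdr]
      exact hb1
    · intro j _
      rfl
  rw [h1]
  have h6 : ∀ d ∈ r.divisors, ‖(ArithmeticFunction.moebius d : ℂ) *
      ∑ j ∈ range (r / d), e r (((d * j : ℕ) : ZMod r) * (h : ZMod r))‖ ≤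
      if ((r / d : ℕ) : ℤ) ∣ h then ((r / d : ℕ) : ℝ) else 0 := by
    intro d hd
    rw [norm_mul]
    have h7 : ‖(ArithmeticFunction.moebius d : ℂ)‖ ≤ 1 := by
      rw [Complex.norm_intCast]
      exact_mod_cast ArithmeticFunction.abs_moebius_le_one
    have h8 := geom (r := r) (d := d) (r' := r / d)
      (Nat.mul_div_cancel' (Nat.dvd_of_mem_divisors hd)).symm h
    calc _ ≤ 1 * _ := mul_le_mul h7 h8 (norm_nonneg _) zero_le_one
      _ = _ := one_mul _
  refine (norm_sum_le _ _).trans ((Finset.sum_le_sum h6).trans ?_)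
  rw [Nat.sum_div_divisors r (fun d => if (d : ℤ) ∣ h then (d : ℝ) else 0), ← Finset.sum_filter]
  have h9 : r.divisors.filter (fun d : ℕ => (d : ℤ) ∣ h) ⊆ range (D.natAbs + 1) := by
    intro d hd
    rw [Finset.mem_filter] at hd
    rw [Finset.mem_range]
    have := Nat.le_of_dvd (Int.natAbs_pos.mpr hD)
      (Int.natCast_dvd.mp (hhD d (Nat.dvd_of_mem_divisors hd.1) hd.2))
    omega
  refine (Finset.sum_le_sum_of_subset_of_nonneg h9 (fun _ _ _ => Nat.cast_nonneg _)).trans ?_
  calc ∑ d ∈ range (D.natAbs + 1), (d : ℝ) ≤ ∑ d ∈ range (D.natAbs + 1), ((D.natAbs : ℝ) + 1) := by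
        refine Finset.sum_le_sum fun d hd => ?_
        rw [Finset.mem_range] at hd
        have : (d : ℝ) < ((D.natAbs + 1 : ℕ) : ℝ) := by exact_mod_cast hd
        push_cast at this
        exact this.le
    _ = ((D.natAbs : ℝ) + 1) ^ 2 := by
        rw [Finset.sum_const, Finset.card_range, nsmul_eq_mul]
        push_cast
        ring

lemma key {r : ℕ} [NeZero r] {ψ : DirichletCharacter ℂ r} (hψ : ψ.IsPrimitive)
    (β β' α α' : ZMod r) :
    (G ψ * conj (G ψ)) * ∑ m : ZMod r, ψ (β * m + α) * conj (ψ (β' * m + α')) =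
      r * ∑ b : ZMod r, ∑ c : ZMod r, if b * β = c * β' then
        ψ⁻¹ b * conj (ψ⁻¹ c) * e r (b * α - c * α') else 0 := by
  have h1 : (G ψ * conj (G ψ)) * ∑ m : ZMod r, ψ (β * m + α) * conj (ψ (β' * m + α')) =
      ∑ m : ZMod r, (ψ (β * m + α) * G ψ) * conj (ψ (β' * m + α') * G ψ) := by
    rw [Finset.mul_sum]
    refine Finset.sum_congr rfl fun m _ => ?_
    rw [map_mul]
    ring
  rw [h1]
  have h2 : ∀ m : ZMod r, (ψ (β * m + α) * G ψ) * conj (ψ (β' * m + α') * G ψ) =
      ∑ b : ZMod r, ∑ c : ZMod r, (ψ⁻¹ b * conj (ψ⁻¹ c) * e r (b * α - c * α')) *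
        e r (m * (b * β - c * β')) := by
    intro m
    rw [gs hψ, gs hψ, map_sum, Finset.sum_mul_sum]
    refine Finset.sum_congr rfl fun b _ => Finset.sum_congr rfl fun c _ => ?_
    rw [map_mul (starRingEnd ℂ), ← AddChar.map_neg_eq_conj]
    have h3 : e r ((β * m + α) * b) * e r (-((β' * m + α') * c)) =
        e r (b * α - c * α') * e r (m * (b * β - c * β')) := by
      rw [← AddChar.map_add_eq_mul, ← AddChar.map_add_eq_mul]
      congr 1
      ring
    calc _ = ψ⁻¹ b * conj (ψ⁻¹ c) *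
          (e r ((β * m + α) * b) * e r (-((β' * m + α') * c))) := by ring
      _ = _ := by
        rw [h3]
        ring
  rw [Finset.sum_congr rfl (fun m _ => h2 m), Finset.sum_comm, Finset.mul_sum]
  refine Finset.sum_congr rfl fun b _ => ?_
  rw [Finset.sum_comm, Finset.mul_sum]
  refine Finset.sum_congr rfl fun c _ => ?_
  rw [← Finset.mul_sum, AddChar.sum_mulShift _ (ZMod.isPrimitive_stdAddChar r)]
  by_cases h : b * β = c * β'
  · rw [if_pos h, if_pos (sub_eq_zero.mpr h), ZMod.card]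
    ring
  · rw [if_neg h, if_neg (fun h' => h (sub_eq_zero.mp h'))]
    push_cast
    ring

/-- the correlation as a sum over a hyperplane -/
lemma cor {r : ℕ} [NeZero r] {ψ : DirichletCharacter ℂ r} (hψ : ψ.IsPrimitive)
    (β β' α α' : ZMod r) :
    ∑ m : ZMod r, ψ (β * m + α) * conj (ψ (β' * m + α')) =
      ∑ b : ZMod r, ∑ c : ZMod r, if b * β = c * β' then
        ψ⁻¹ b * conj (ψ⁻¹ c) * e r (b * α - c * α') else 0 := by
  have h1 := key hψ β β' α α'
  rw [GG hψ] at h1
  have : (r : ℂ) ≠ 0 := by exact_mod_cast NeZero.ne r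
  exact mul_left_cancel₀ this h1

/-- the inner sum for a given second variable -/
lemma inner {r : ℕ} [NeZero r] (ψ : DirichletCharacter ℂ r) (β β' α α' c : ZMod r) :
    ∑ b : ZMod r, (if b * β = c * β' then
        ψ⁻¹ b * conj (ψ⁻¹ c) * e r (b * α - c * α') else 0) =
      ∑ v : ZMod r, if v * β = β' then
        ψ⁻¹ v * (if IsUnit c then e r (c * (v * α - α')) else 0) else 0 := by
  by_cases hc : IsUnit c
  · obtain ⟨u, rfl⟩ := hc
    have h1 : ∑ b : ZMod r, (if b * β = (u : ZMod r) * β' then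
        ψ⁻¹ b * conj (ψ⁻¹ (u : ZMod r)) * e r (b * α - u * α') else 0) =
        ∑ v : ZMod r, (if ((u : ZMod r) * v) * β = (u : ZMod r) * β' then
        ψ⁻¹ ((u : ZMod r) * v) * conj (ψ⁻¹ (u : ZMod r)) *
          e r (((u : ZMod r) * v) * α - u * α') else 0) :=
      (Fintype.sum_bijective (fun v : ZMod r => (u : ZMod r) * v) (Units.mulLeft_bijective u) _ _
        (fun v => rfl)).symm
    rw [h1]
    refine Finset.sum_congr rfl fun v _ => ?_
    have h2 : ((u : ZMod r) * v) * β = (u : ZMod r) * β' ↔ v * β = β' := by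
      rw [mul_assoc, Units.mul_right_inj]
    simp only [h2, Units.isUnit, if_true]
    split_ifs with h3
    · have h6 : ψ⁻¹ (u : ZMod r) * conj (ψ⁻¹ (u : ZMod r)) = 1 := by
        have h12 : ‖ψ⁻¹ (u : ZMod r)‖ = 1 := DirichletCharacter.unit_norm_eq_one _ u
        rw [Complex.mul_conj, Complex.normSq_eq_norm_sq, h12]
        norm_num
      have h7 : ((u : ZMod r) * v) * α - u * α' = (u : ZMod r) * (v * α - α') := by ring
      rw [map_mul, h7]
      linear_combination (ψ⁻¹ v * e r ((u : ZMod r) * (v * α - α'))) * h6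
    · rfl
  · have h0 : ψ⁻¹ c = 0 := MulChar.map_nonunit _ hc
    simp [h0, hc]

/-- few solutions of a linear congruence -/
lemma few {r : ℕ} [NeZero r] {β : ℤ} (hβ : β ≠ 0) (β' : ZMod r) :
    (univ.filter (fun v : ZMod r => v * (β : ZMod r) = β')).card ≤ β.natAbs := by
  have hr : 0 < r := Nat.pos_of_ne_zero (NeZero.ne r)
  rw [← Finset.card_range β.natAbs]
  refine Finset.card_le_card_of_injOn (fun v => v.val * β.natAbs / r) ?_ ?_
  · intro v _
    simp only [Finset.coe_range, Set.mem_Iio]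
    rw [Nat.div_lt_iff_lt_mul hr, mul_comm]
    exact (Nat.mul_lt_mul_left (Int.natAbs_pos.mpr hβ)).mpr (ZMod.val_lt v)
  · intro v hv v' hv' h
    simp only [Finset.coe_filter, Finset.mem_univ, true_and, Set.mem_ofPred_eq] at hv hv'
    have h1 : v * (β : ZMod r) = v' * (β : ZMod r) := by rw [hv, hv']
    have h2 : ((v.val * β.natAbs : ℕ) : ZMod r) = ((v'.val * β.natAbs : ℕ) : ZMod r) := by
      push_cast
      rw [ZMod.natCast_zmod_val, ZMod.natCast_zmod_val]
      rcases Int.natAbs_eq β with h3 | h3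
      · have h4 : ((β.natAbs : ℕ) : ZMod r) = (β : ZMod r) := by
          conv_rhs => rw [h3]
          rw [Int.cast_natCast]
        rw [h4, h1]
      · have h4 : ((β.natAbs : ℕ) : ZMod r) = -(β : ZMod r) := by
          conv_rhs => rw [h3]
          rw [Int.cast_neg, Int.cast_natCast, neg_neg]
        rw [h4, mul_neg, mul_neg, h1]
    rw [ZMod.natCast_eq_natCast_iff'] at h2
    have h5 : v.val * β.natAbs = v'.val * β.natAbs := by
      rw [← Nat.div_add_mod (v.val * β.natAbs) r, ← Nat.div_add_mod (v'.val * β.natAbs) r, h2]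
      simp only at h
      rw [h]
    exact ZMod.val_injective r (Nat.eq_of_mul_eq_mul_right (Int.natAbs_pos.mpr hβ) h5)

end RAM2_

/-- job TPM-RAM2 -/
theorem prove_RAM2 : T_RAM2 := by
  intro α α' β β' hβ hβ' hΔ
  refine ⟨(β.natAbs : ℝ) * (((α * β' - α' * β).natAbs : ℝ) + 1) ^ 2, ?_⟩
  intro r ψ hr hψ
  have : NeZero r := ⟨by omega⟩
  have h0 : ∑ m ∈ Finset.range r,
      ψ ((β * m + α : ℤ) : ZMod r) * conj (ψ ((β' * m + α' : ℤ) : ZMod r)) =
      ∑ m : ZMod r, ψ ((β : ZMod r) * m + (α : ZMod r)) *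
        conj (ψ ((β' : ZMod r) * m + (α' : ZMod r))) := by
    rw [← EllTw.RAM_.sum_range_zmod]
    refine Finset.sum_congr rfl fun m _ => ?_
    push_cast
    rfl
  rw [h0, RAM2_.cor hψ, Finset.sum_comm, Finset.sum_congr rfl (fun c _ => RAM2_.inner ψ _ _ _ _ c),
    Finset.sum_comm]
  have h1 : ∀ v : ZMod r, ‖∑ c : ZMod r, (if v * (β : ZMod r) = (β' : ZMod r) then
      ψ⁻¹ v * (if IsUnit c then EllTw.RAM_.e r (c * (v * (α : ZMod r) - (α' : ZMod r))) else 0)
        else 0)‖ ≤ if v * (β : ZMod r) = (β' : ZMod r) then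
          (((α * β' - α' * β).natAbs : ℝ) + 1) ^ 2 else 0 := by
    intro v
    split_ifs with hv
    · rw [← Finset.mul_sum, norm_mul]
      have h8 : ‖ψ⁻¹ v‖ ≤ 1 := DirichletCharacter.norm_le_one _ _
      set h : ℤ := (v.val : ℤ) * α - α' with hh
      have hcast : (h : ZMod r) = v * (α : ZMod r) - (α' : ZMod r) := by
        rw [hh]
        push_cast
        rw [ZMod.natCast_zmod_val]
      have h9 : ‖∑ c : ZMod r, (if IsUnit c then
          EllTw.RAM_.e r (c * (v * (α : ZMod r) - (α' : ZMod r))) else 0)‖ ≤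
          (((α * β' - α' * β).natAbs : ℝ) + 1) ^ 2 := by
        rw [← hcast, ← EllTw.RAM_.sum_range_zmod]
        have hdiv : (r : ℤ) ∣ h * β - (α * β' - α' * β) := by
          rw [← ZMod.intCast_zmod_eq_zero_iff_dvd]
          push_cast
          rw [hcast]
          linear_combination (α : ZMod r) * hv
        have h10 := RAM2_.ram (r := r) (h := h) hΔ (fun d hd hd' => by
          have h11 : (d : ℤ) ∣ h * β - (α * β' - α' * β) :=
            (Int.natCast_dvd_natCast.mpr hd).trans hdiv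
          have h12 : (d : ℤ) ∣ h * β := Dvd.dvd.mul_right hd' β
          exact (dvd_sub_right h12).mp h11)
        have h11 : ∀ b : ℕ, (if IsUnit (b : ZMod r) then
              EllTw.RAM_.e r ((b : ZMod r) * (h : ZMod r)) else 0) =
            if b.Coprime r then EllTw.RAM_.e r ((b : ZMod r) * (h : ZMod r)) else 0 := by
          intro b
          simp only [ZMod.isUnit_iff_coprime]
        simp only [h11]
        exact h10
      calc _ ≤ 1 * _ := mul_le_mul h8 h9 (norm_nonneg _) zero_le_one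
        _ = _ := one_mul _
    · simp
  refine (norm_sum_le _ _).trans ((Finset.sum_le_sum fun v _ => h1 v).trans ?_)
  rw [← Finset.sum_filter, Finset.sum_const, nsmul_eq_mul]
  have h2 := RAM2_.few (r := r) hβ (β' : ZMod r)
  gcongr

end Pool.Agent.TPM
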