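import Pool.Agent.Ell.Targets2
import Pool.Agent.Ell.Rep
import Pool.Agent.EllTw.Targets

set_option autoImplicit false

/-! Two-point Elliott, one function structured on the large primes, every modulus `q ≤ x ^ δ` and
every `|t| ≤ x ^ C` (MP_f3f922_nt): definitions and targets. -/

namespace Pool.Agent.TPM

open Finset Filter Pool.Agent.Ell
open scoped BigOperators ComplexConjugate

/-- the structured periodic factor `f(e) conj(e ^ {i t}) ψ(n / e)`, `e = gcd(n, D)`, on the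
integers (the integer version of `Rep.xi`) -/
noncomputable def xz {r : ℕ} (f : ℕ → ℂ) (ψ : DirichletCharacter ℂ r) (t : ℝ) (D : ℕ) (n : ℤ) : ℂ :=
  f (Int.gcd n D) * conj (nit t (Int.gcd n D)) * ψ ((n / (Int.gcd n D : ℤ) : ℤ) : ZMod r)

/-- small prime powers times the primes above `z` which divide `r` -/
def DD (z V r : ℕ) : ℕ := Rep.Q1 z V * ∏ ℓ ∈ r.primeFactors.filter (fun ℓ => z < ℓ), ℓ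

/-- the local value at a prime `ℓ` -/
noncomputable def zt {r : ℕ} (f : ℕ → ℂ) (ψ : DirichletCharacter ℂ r) (t : ℝ) (ℓ : ℕ) : ℂ :=
  if ℓ ∣ r then 1 else f ℓ * conj (ψ (ℓ : ZMod r) * nit t ℓ)

/-- the structured function -/
noncomputable def Gf {r : ℕ} (f : ℕ → ℂ) (ψ : DirichletCharacter ℂ r) (t : ℝ) (D z w n : ℕ) : ℂ :=
  nit t n * (xz f ψ t D n * ∏ ℓ ∈ (prs z w).filter (· ∣ n), zt f ψ t ℓ)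

/-- the periodic part of a cross product -/
noncomputable def Lm {r : ℕ} (f : ℕ → ℂ) (ψ : DirichletCharacter ℂ r) (t : ℝ) (D : ℕ) (a : ℤ)
    (p p' : ℕ) (m : ℕ) : ℂ :=
  xz f ψ t D ((p : ℤ) * m + a) * conj (xz f ψ t D ((p' : ℤ) * m + a))

/-- TPM-RAM2. The correlation of a primitive character along two linear forms is bounded.
PROOF. `K = |β'| (|Δ| + 1)^2`, `Δ = α β' - α' β ≠ 0`. As in `EllTw.RAM_.key`, `RAM_.cor` (same proof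
with `α x + ..` replaced: Gauss sums and orthogonality) the sum over `ZMod r` is
`∑ b, ∑ c, if b β = c β' then ψ⁻¹ b * conj (ψ⁻¹ c) * e(b α - c α')`. Only units `b, c` count; put
`v = b c⁻¹` (a unit with `v β = β'`); there are at most `|β|` such `v` (if `v₁ β = v₂ β = β'` then
`v₁ - v₂` is killed by `β`, so it lies in the `gcd(β, r)` multiples of `r / gcd(β, r)`; so use
`|β|` in `K`). For fixed `v` the sum is `ψ⁻¹ v * ∑ (c unit), e(c (v α - α'))`, a Ramanujan sum. Let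
`h : ℤ` be a lift of `v α - α'`: `h β = (v β) α - α' β = β' α - α' β = Δ` in `ZMod r`. So
`gcd(h, r) ∣ Δ` (a common divisor `d` of `h` and `r` divides `Δ`), and the Ramanujan sum is
`≤ ∑ (d ∣ gcd(h, r)), d ≤ (|Δ| + 1)^2`: redo `RAM_.ram` with the sets `d ∣ r, d ∣ h` (all such
`d` divide `Δ`); `RAM_.geom`, `RAM_.mob`, `RAM_.sum_range_zmod`, `RAM_.gs`, `RAM_.GG` are
available for reuse. -/
def T_RAM2 : Prop := ∀ α α' β β' : ℤ, β ≠ 0 → β' ≠ 0 → α * β' - α' * β ≠ 0 →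
  ∃ K : ℝ, ∀ (r : ℕ) (ψ : DirichletCharacter ℂ r), 1 ≤ r → ψ.IsPrimitive →
  ‖∑ m ∈ Finset.range r, ψ ((β * m + α : ℤ) : ZMod r) * conj (ψ ((β' * m + α' : ℤ) : ZMod r))‖ ≤ K

/-- TPM-FAC. Factorization of a primitive character.
PROOF. `ψ₁ x = ψ (crt⁻¹ (x, 1))`, `ψ₂ y = ψ (crt⁻¹ (1, y))` with `ZMod.chineseRemainder`
(`MulChar.ofUnitHom` or the structure directly: a nonunit `x` gives a nonunit `(x, 1)`).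
`n = (n, 1) (1, n)`. Primitive: if `ψ₁` factors through `d ∣ r₁` then `ψ` factors through `d r₂`
(`DirichletCharacter.factorsThrough_iff_ker_unitsMap`: a unit `u = 1 mod d r₂` is `(u, 1)` with
`u mod r₁ = 1 mod d`, so `ψ u = ψ₁ u = 1`), hence `r₁ r₂ = conductor ψ ≤ d r₂`, `d = r₁`. -/
def T_FAC : Prop := ∀ (r₁ r₂ : ℕ) (ψ : DirichletCharacter ℂ (r₁ * r₂)), 1 ≤ r₁ → 1 ≤ r₂ →
  r₁.Coprime r₂ → ψ.IsPrimitive → ∃ (ψ₁ : DirichletCharacter ℂ r₁) (ψ₂ : DirichletCharacter ℂ r₂),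
  ψ₁.IsPrimitive ∧ ∀ n : ℤ, ψ (n : ZMod (r₁ * r₂)) = ψ₁ (n : ZMod r₁) * ψ₂ (n : ZMod r₂)

/-- TPM-XZ. Basic facts (helper70). The last part: if `e = gcd(n, D)` then
`xz (n + D s) = f(e) conj(e ^ {i t}) ψ(n / e + (D / e) s)`. -/
def T_XZ : Prop := (∀ z V r : ℕ, 1 ≤ r → 1 ≤ DD z V r ∧ DD z V r ≤ Rep.Q1 z V * r ∧
    (∀ ℓ : ℕ, ℓ.Prime → z < ℓ → (ℓ ∣ DD z V r ↔ ℓ ∣ r))) ∧
  ∀ (r : ℕ) (ψ : DirichletCharacter ℂ r) (f : ℕ → ℂ) (t : ℝ) (D : ℕ), MB f → 1 ≤ D →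
  (∀ n : ℤ, ‖xz f ψ t D n‖ ≤ 1) ∧
  (∀ ℓ : ℕ, 1 ≤ ℓ → ‖zt f ψ t ℓ‖ ≤ 1) ∧
  (∀ z w n : ℕ, ‖Gf f ψ t D z w n‖ ≤ 1) ∧
  (∀ (a : ℤ) (p p' : ℕ), Per (D * r) (Lm f ψ t D a p p')) ∧
  (∀ (a : ℤ) (p p' m : ℕ), ‖Lm f ψ t D a p p' m‖ ≤ 1) ∧
  ∀ n s : ℤ, xz f ψ t D (n + D * s) = f (Int.gcd n D) * conj (nit t (Int.gcd n D)) *
    ψ ((n / (Int.gcd n D : ℤ) + (D : ℤ) / (Int.gcd n D : ℤ) * s : ℤ) : ZMod r)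

/-- TPM-AVG (helper70). Splitting a mean. -/
def T_AVG : Prop := ∀ (q M : ℕ) (F : ℕ → ℂ) (B : ℝ), 1 ≤ q → 1 ≤ M →
  (∀ m0 < M, ‖∑ s ∈ Finset.range q, F (m0 + M * s)‖ ≤ B) → ‖mean (M * q) F‖ ≤ B / q

/-- TPM-MSU. The uniform version of `T_MS`: `q0 ≤ N ^ (3 c / 4)` arbitrary, the local functions at
the primes dividing `q0` are trivial.
PROOF. Copy `Pool/Agent/Ell/MS.lean` (theorem `p_MS` and lemma `MSaux.term`). Only change: `N0` does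
not depend on `q0` (the bound for `q0` is a hypothesis), and in `term` for a set `S` containing
a prime `ℓ ∣ q0` both `∏ ℓ ∈ S, u ℓ m` and `∏ ℓ ∈ S, mean ℓ (u ℓ)` vanish. -/
def T_MSU : Prop := ∀ (r : ℕ) (c δ : ℝ), 1 ≤ r → 0 < c → c ≤ 1 / 4 → 0 < δ →
  ∃ (s : ℝ) (N0 : ℕ), 1 ≤ s ∧ ∀ N z w q0 : ℕ, N0 ≤ N → 2 * r ≤ z → (w : ℝ) ^ s ≤ N →
  1 ≤ q0 → (q0 : ℝ) ≤ (N : ℝ) ^ (3 * c / 4) →
  ∀ (E : ℕ → ℂ) (x y : ℕ), (∀ m, ‖E m‖ ≤ 1) → x ≤ y → y ≤ x + N →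
  (∀ (q : ℕ) (ξ : ℕ → ℂ), 1 ≤ q → (q : ℝ) ≤ (N : ℝ) ^ c → Per q ξ → (∀ m, ‖ξ m‖ ≤ 1) →
    ‖∑ m ∈ Finset.Ioc x y, E m * ξ m - mean q ξ * ∑ m ∈ Finset.Ioc x y, E m‖ ≤
      (N : ℝ) ^ (1 - c)) →
  ∀ (ξ : ℕ → ℂ) (u : ℕ → ℕ → ℂ) (R : ℕ → Finset ℕ), Per q0 ξ → (∀ m, ‖ξ m‖ ≤ 1) →
  (∀ ℓ ∈ prs z w, Per ℓ (u ℓ) ∧ (R ℓ).card ≤ r ∧
    ∀ m, ‖1 + u ℓ m‖ ≤ 1 ∧ (u ℓ m ≠ 0 → m % ℓ ∈ R ℓ)) →
  (∀ ℓ ∈ prs z w, ℓ ∣ q0 → ∀ m, u ℓ m = 0) →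
  ‖∑ m ∈ Finset.Ioc x y, E m * (ξ m * ∏ ℓ ∈ prs z w, (1 + u ℓ m)) -
    mean q0 ξ * (∏ ℓ ∈ prs z w, (1 + mean ℓ (u ℓ))) * ∑ m ∈ Finset.Ioc x y, E m‖ ≤ δ * N

/-- TPM-STR (from `T_MERT`, `T_XZ`). A function close to `ψ(n) n^{it}` on the primes above
`x ^ (1 / A)` is close to a structured function in `L^1`, for every modulus.
PROOF. Adapt `Pool/Agent/Ell/Rep.lean` (`p_REP`). Let `n` not be `Rep.Bad z V`, `D = DD z V r`,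
`e = gcd(n, D)`, `n = e m`. Then every prime `p ∣ m` is `> z` (as in `good_structure`), does not
divide `r` (else `p ∣ D`, so `p ∣ e` and `p^2 ∣ n`), does not divide `e`, and `m` is squarefree. So
`f n = f e ∏ (p ∣ m), f p`. The primes `ℓ ∈ prs z w` with `ℓ ∣ n`, `ℓ ∤ r` are the primes `p ∣ m`,
`p ≤ w` (`ℓ > z`, `ℓ ∤ r` implies `ℓ ∤ D`); for these `|ψ(p)| = 1`; the primes `ℓ ∣ r` contribute
`zt = 1`. Hence `f n - Gf n = f e (∏ f p - ∏ B p)`, `B p = f p` if `p ≤ w`, else `ψ(p) p^{it}`, of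
norm `≤ ∑ (p ∣ n, w < p), ‖f p - ψ(p) p^{it}‖` (`Rep.norm_prod_sub_prod`). The sum over `n ≤ x` is
bounded exactly as in `p_REP` (`card_bad`, `card_dvd_le`, `sum_large`, `sum_dist`): choose
`z1 ≥ 16 / ε`, `V` with `z / 2 ^ (V + 1) ≤ ε / 16`, `A0` with `(6 C1 / √A) ^ (1/2) ≤ ε / 2`. -/
def T_STR : Prop := ∀ ε : ℝ, 0 < ε → ∃ z1 : ℕ, ∀ z : ℕ, z1 ≤ z →
  ∃ (V : ℕ) (A0 : ℝ), 1 ≤ A0 ∧ ∀ A : ℝ, A0 ≤ A → ∃ X : ℕ,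
  ∀ (x : ℕ) (f : ℕ → ℂ) (r : ℕ) (ψ : DirichletCharacter ℂ r) (t : ℝ), X ≤ x → MB f → 1 ≤ r →
  dist2 f ψ t ((x : ℝ) ^ (1 / A)) x ≤ 1 / A →
  ∑ n ∈ Finset.Icc 1 x, ‖f n - Gf f ψ t (DD z V r) z ⌊(x : ℝ) ^ (1 / A)⌋₊ n‖ ≤ ε * x

/-- TPM-MEA (from `T_FAC`, `EllTw.T_RAM`, `T_XZ`, `T_AVG`). The mean of the cross product if a
prime `ℓ > z` divides the conductor.
PROOF. `r = ℓ ^ k r'`, `ℓ ∤ r'`, `k ≥ 1`; `D = DD z V r = ℓ D'`, `ℓ ∤ D'` (`Rep.le_of_dvd_Q1`). Let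
`q = ℓ ^ (k + 1)`, `M = D' r'`: `D r = M q`, `ℓ ∤ M`. `ψ = ψ₁ ψ₂` by `T_FAC`, `ψ₁` primitive
mod `ℓ ^ k`. By `T_AVG` fix `m0` and let `m = m0 + M s`, `n = p m + a`, `n' = p' m + a`,
`e = gcd(p m0 + a, D')`. If `ℓ ∤ n` then `gcd(n, D) = gcd(n, D') = e` (`D' ∣ M`), and
`n / e = (p m0 + a) / e + p (D' / e) r' s`, so `ψ₂(n / e)` is constant, and
`ψ₁(n / e) = ψ₁(n) conj ψ₁(e)`, `|ψ₁(e)| = 1`. So `xz n = κ ψ₁(n)`, `|κ| ≤ 1`, `κ` independent of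
`s`; if `ℓ ∣ n` then `ψ₁(n) = 0`, `|xz n| ≤ 1`. Same for `n'`. So
`|∑ (s < q), Lm (m0 + M s)| ≤ |∑ (s < q), ψ₁(n) conj ψ₁(n')| + #(ℓ ∣ n) + #(ℓ ∣ n')`, the two
numbers are `≤ ℓ ^ k` (`ℓ ∤ p M`) and the sum is `ℓ` times the complete sum over
`m mod ℓ ^ k` (`s ↦ m0 + M s` permutes the residues mod `ℓ ^ k`), `≤ ℓ K0` by `T_RAM`. So
`K = K0 + 2`. -/
def T_MEA : Prop := ∀ (a : ℤ) (p p' : ℕ), a ≠ 0 → p.Prime → p'.Prime → p ≠ p' →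
  ∃ K : ℝ, 0 < K ∧ ∀ (z V r ℓ : ℕ) (ψ : DirichletCharacter ℂ r) (f : ℕ → ℂ) (t : ℝ), 1 ≤ r →
  ψ.IsPrimitive → MB f → ℓ.Prime → ℓ ∣ r → z < ℓ → p ≤ z → p' ≤ z →
  ‖mean (DD z V r * r) (Lm f ψ t (DD z V r) a p p')‖ ≤ K / ℓ

/-- TPM-MEB (from `T_RAM2`, `T_XZ`, `T_AVG`). The mean of the cross product if the conductor is
`z`-smooth.
PROOF. Then `D = DD z V r = Rep.Q1 z V` is fixed. By `T_AVG` (`M = D`, `q = r`) fix `m0 < D` and let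
`m = m0 + D s`, `s < r`. With `n0 = p m0 + a`, `e = gcd(n0, D)` the last part of `T_XZ` gives
`xz (p m + a) = const * ψ(n0 / e + p (D / e) s)`, `|const| ≤ 1`, same for `p'`, `n0'`, `e'`. Now
`T_RAM2` with `α = n0 / e`, `β = p (D / e)`, `α' = n0' / e'`, `β' = p' (D / e')`:
`α β' - α' β = D (n0 p' - n0' p) / (e e') = D a (p' - p) / (e e') ≠ 0`. `K` = sum of the `D`
constants `|K_{m0}| + 1`, `m0 < D`. -/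
def T_MEB : Prop := ∀ (a : ℤ) (p p' z V : ℕ), a ≠ 0 → p.Prime → p'.Prime → p ≠ p' →
  ∃ K : ℝ, 0 < K ∧ ∀ (r : ℕ) (ψ : DirichletCharacter ℂ r) (f : ℕ → ℂ) (t : ℝ), 1 ≤ r →
  ψ.IsPrimitive → MB f → (∀ ℓ : ℕ, ℓ.Prime → ℓ ∣ r → ℓ ≤ z) →
  ‖mean (DD z V r * r) (Lm f ψ t (DD z V r) a p p')‖ ≤ K / r

/-- TPM-MN (from `T_MEA`, `T_MEB`): `z0 ≥ K / η, p, p'`; then `R ≥ K(z, V) / η`. -/
def T_MN : Prop := ∀ (a : ℤ) (p p' : ℕ) (η : ℝ), a ≠ 0 → p.Prime → p'.Prime → p ≠ p' → 0 < η →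
  ∃ z0 : ℕ, ∀ z V : ℕ, z0 ≤ z → ∃ R : ℕ, ∀ (r : ℕ) (ψ : DirichletCharacter ℂ r) (f : ℕ → ℂ) (t : ℝ),
  R < r → ψ.IsPrimitive → MB f →
  ‖mean (DD z V r * r) (Lm f ψ t (DD z V r) a p p')‖ ≤ η

/-- TPM-BLK (from `T_MSU`, `T_EQ`, `T_OSC`, `T_MN`, `T_XZ`). One dyadic block.
PROOF. `k = 1`, `av = fun _ : Fin 1 => a`, `tv = fun _ => t`. `T_EQ` gives `c0, N1`; `T_OSC` with
`η / 2` gives `B, N2`; `T_MSU` with `r = 2`, `c0`, `η / 2` gives `s, N3`; `z0` larger than `4`, `p`,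
`p'`, `|a p' - a p|` and the `z0` of `T_MN` (`η / 2`); `R` of `T_MN`; `c = c0 / 4`, `N0` with
`Q1 z V ≤ N0 ^ (c0 / 4)`: then `q0 = D r ≤ Q1 r ^ 2 ≤ N ^ (3 c0 / 4)`. For `m ≥ 1`, `n = sh a (p m)`
is the integer `p m + a ≥ 1`. Then (see `KeyD.block`) `Gf(sh a (p m)) conj Gf(sh a (p' m)) =
ei (PF av tv p p' 0 m) * (Lm m * ∏ ℓ ∈ prs z w, (1 + u ℓ m))` by `KeyA.ph_cross`, and
`1 + u ℓ m = lf ℓ (al ℓ p a, al ℓ p' a) (zt ℓ, conj (zt ℓ)) m` (`KeyC.loc_lf`, `conj_lf`, `lf_mul`,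
`al_inj2`; the reduction to local functions as in `KeyB.ms_lf`: `per_lf`, `norm_lf`, class set of
two elements). If `ℓ ∈ prs z w` divides `q0 = D r` then `ℓ ∣ r` (`T_XZ`), so `zt = 1`, `u = 0`. So
by `T_MSU` the sum is `≤ η / 2 N + ‖mean‖ ‖∏‖ ‖∑ ei‖`, `‖∏‖ ≤ 1` (`MSaux.norm_one_add_mean_le`). If
`R < r` then `‖mean‖ ≤ η / 2`, `‖∑ ei‖ ≤ N`. If `B N < |t|` then `Lam = |t a| / N ≥ B`, so
`‖∑ ei‖ ≤ η / 2 N` by `T_OSC`, `‖mean‖ ≤ 1`. -/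
def T_BLK : Prop := ∀ (a : ℤ) (p p' : ℕ) (C η : ℝ), a ≠ 0 → p.Prime → p'.Prime → p ≠ p' →
  |a| < (p : ℤ) → |a| < (p' : ℤ) → 0 < C → 0 < η →
  ∃ (s c B : ℝ) (z0 : ℕ), 1 ≤ s ∧ 0 < c ∧ 0 < B ∧ ∀ z V : ℕ, z0 ≤ z → ∃ R N0 : ℕ,
  ∀ (N w r : ℕ) (ψ : DirichletCharacter ℂ r) (f : ℕ → ℂ) (t : ℝ), N0 ≤ N → (w : ℝ) ^ s ≤ N →
  1 ≤ r → (r : ℝ) ≤ (N : ℝ) ^ c → ψ.IsPrimitive → MB f → |t| ≤ (N : ℝ) ^ C →
  (R < r ∨ B * N < |t|) → ∀ x y : ℕ, N ≤ x → x ≤ y → y ≤ 2 * N →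
  ‖∑ m ∈ Finset.Ioc x y, Gf f ψ t (DD z V r) z w (sh a (p * m)) *
    conj (Gf f ψ t (DD z V r) z w (sh a (p' * m)))‖ ≤ η * N

/-- TPM-CRS (from `T_BLK`, `T_XZ`). The cross sums up to any `M ≤ x`.
PROOF. As `KeyE.cross`: `T_BLK` with `2 C`, `η / 64`; `KeyC.dyadic` with `N2 = ⌈η / 64 x⌉`,
`KeyE.large_x`, `KeyE.w_pow` (`2 s ≤ A`), and `r ≤ x ^ (1 / A) ≤ (x ^ (1/2)) ^ c ≤ N ^ c` if
`2 / c ≤ A`; `B x < |t|` implies `B N < |t|` for `N ≤ x`. -/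
def T_CRS : Prop := ∀ (a : ℤ) (p p' : ℕ) (C η : ℝ), a ≠ 0 → p.Prime → p'.Prime → p ≠ p' →
  |a| < (p : ℤ) → |a| < (p' : ℤ) → 0 < C → 0 < η →
  ∃ (B : ℝ) (z0 : ℕ), 0 < B ∧ ∀ z V : ℕ, z0 ≤ z → ∃ (R : ℕ) (A0 : ℝ), 1 ≤ A0 ∧
  ∀ A : ℝ, A0 ≤ A → ∃ X : ℕ,
  ∀ (x r : ℕ) (ψ : DirichletCharacter ℂ r) (f : ℕ → ℂ) (t : ℝ), X ≤ x → 1 ≤ r →
  (r : ℝ) ≤ (x : ℝ) ^ (1 / A) → ψ.IsPrimitive → MB f → |t| ≤ (x : ℝ) ^ C →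
  (R < r ∨ B * x < |t|) → ∀ M : ℕ, M ≤ x →
  ‖∑ m ∈ Finset.Icc 1 M, Gf f ψ t (DD z V r) z ⌊(x : ℝ) ^ (1 / A)⌋₊ (sh a (p * m)) *
    conj (Gf f ψ t (DD z V r) z ⌊(x : ℝ) ^ (1 / A)⌋₊ (sh a (p' * m)))‖ ≤ η * x

/-- TPM-LC (from `T_KAT`, `T_CRS`, `T_STR`, `T_XZ`). Large conductor or large `t`.
PROOF. `T_KAT (ε / 2) |a|` gives `P, δ, X1`. For each pair of distinct primes of `P` take `B, z0`
of `T_CRS a p p' C δ`; `z` ≥ all `z0` and `z1` of `T_STR (ε / 4)`; `V` from `T_STR z`; then `R`,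
`A0` of each pair; `R`, `B`, `A` = maxima (with `A0` of `T_STR`). For large `x`, `T_KAT` with
`H n = Gf (sh a n)` gives `‖∑ g n Gf(sh a n)‖ ≤ ε / 2 x`, and
`∑ ‖f(sh a n) - Gf(sh a n)‖ ≤ ∑ (n ≤ x) ‖f n - Gf n‖ + 2 |a|` by `MainAux.sum_sh`. -/
def T_LC : Prop := ∀ (a : ℤ) (C ε : ℝ), a ≠ 0 → 0 < C → 0 < ε →
  ∃ (R X : ℕ) (B A : ℝ), 1 ≤ A ∧ ∀ (x r : ℕ) (ψ : DirichletCharacter ℂ r) (f g : ℕ → ℂ) (t : ℝ),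
  X ≤ x → MB f → MB g → 1 ≤ r → ψ.IsPrimitive → (r : ℝ) ≤ (x : ℝ) ^ (1 / A) →
  |t| ≤ (x : ℝ) ^ C → dist2 f ψ t ((x : ℝ) ^ (1 / A)) x ≤ 1 / A → (R < r ∨ B * x < |t|) →
  ‖∑ n ∈ Finset.Icc 1 x, g n * f (sh a n)‖ ≤ ε * x

/-- TPM-FIN (from `T_LC`, `Elliott.twoPoint`, `Ell.Final.final` for `k = 1`). The final theorem.
PROOF. `T_LC` with `a = h₁ - h₂` (`f = f₁`, `g = f₂`) and with `a = h₂ - h₁` (`f = f₂`, `g = f₁`),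
exponent `C + 1`, error `ε / 4`, give `R, X, B, A1` (maxima). `Elliott.twoPoint h₁ h₂ hne ε` gives
`δ', A₀'`; put `A' = max A₀' R B 2`. `Ell.Final.final (main_of_core p_CORE)` for `k = 1`,
`h = ![h₁, h₂]`, `C'' ≥ max R 2 ⌈C⌉` gives `A₀''`; `A'' = max A₀'' 2`. `δ = min δ' (1 / (2 A1))
(1 / A'')`, `A₀` ≥ all the constants. Let `N = ⌊x⌋`. If `R < q` or `B N < |t|`: `T_LC` at `N`
(as in `Ell/Final.lean`: `x ≤ N ^ 2`, so `x ^ δ ≤ N ^ (1 / A1)`, `x ^ C ≤ N ^ (C + 1)`), then the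
shift `n + h₂ = m` changes the sum by at most `2 h₂`. Otherwise `q ≤ R ≤ A`, `|t| ≤ B x ≤ A x`:
in the first alternative use `twoPoint` with `A'` (its distance hypothesis follows from `A ≥ A'`),
in the second one `Ell.Final.final` with `A''`, `j₀ = 0`. -/
def T_FIN : Prop := ∀ h₁ h₂ : ℕ, h₁ ≠ h₂ → ∀ C ε : ℝ, 0 < C → 0 < ε →
    ∃ δ : ℝ, 0 < δ ∧ ∃ A₀ : ℝ, ∀ A : ℝ, 2 ≤ A → A₀ ≤ A → ∀ x : ℝ, A ≤ x →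
    ∀ f₁ f₂ : ArithmeticFunction ℂ, f₁.IsMultiplicative → f₂.IsMultiplicative →
      (∀ n, ‖f₁ n‖ ≤ 1) → (∀ n, ‖f₂ n‖ ≤ 1) →
      (∃ q : ℕ, 1 ≤ q ∧ (q : ℝ) ≤ x ^ δ ∧ ∃ χ : DirichletCharacter ℂ q, χ.IsPrimitive ∧
        ∃ t : ℝ, |t| ≤ x ^ C ∧
        ((∑ p ∈ (Finset.Iic ⌊x⌋₊).filter (fun p : ℕ => p.Prime ∧ x ^ δ < p),
              (1 - (f₁ p * (starRingEnd ℂ) (χ (p : ZMod q) *
                (p : ℂ) ^ ((t : ℂ) * Complex.I))).re) / (p : ℝ) ≤ δ ∧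
            ((q : ℝ) ≤ A → |t| ≤ A * x →
              A ≤ Real.sqrt (∑ p ∈ (Finset.Iic ⌊x⌋₊).filter Nat.Prime,
                (1 - (f₁ p * (starRingEnd ℂ) (χ (p : ZMod q) *
                  (p : ℂ) ^ ((t : ℂ) * Complex.I))).re) / (p : ℝ)))) ∨
         (∑ p ∈ (Finset.Iic ⌊x⌋₊).filter (fun p : ℕ => p.Prime ∧ x ^ δ < p),
              (1 - (f₂ p * (starRingEnd ℂ) (χ (p : ZMod q) *
                (p : ℂ) ^ ((t : ℂ) * Complex.I))).re) / (p : ℝ) ≤ δ ∧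
            ∀ q' : ℕ, 1 ≤ q' → (q' : ℝ) ≤ A → ∀ χ' : DirichletCharacter ℂ q', ∀ t' : ℝ,
              |t'| ≤ A * x →
              A ≤ Real.sqrt (∑ p ∈ (Finset.Iic ⌊x⌋₊).filter Nat.Prime,
                (1 - (f₁ p * (starRingEnd ℂ) (χ' (p : ZMod q') *
                  (p : ℂ) ^ ((t' : ℂ) * Complex.I))).re) / (p : ℝ))))) →
      ‖∑ n ∈ Finset.Icc 1 ⌊x⌋₊, f₁ (n + h₁) * f₂ (n + h₂)‖ / x ≤ ε

end Pool.Agent.TPM
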