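import Pool.Agent.TPM.Targets
import Pool.Agent.Ell.KeyE

set_option autoImplicit false

/-! TPM-CRS: the cross sums up to any `M ≤ x` from the block estimate. -/

namespace Pool.Agent.TPM

open Finset Filter Pool.Agent.Ell
open scoped BigOperators ComplexConjugate

namespace CRS_

/-- comparison of the powers for the conductor -/
theorem r_pow (x N : ℕ) (A c r : ℝ) (hx : 1 ≤ x) (hc : 0 < c) (hA : 2 / c ≤ A)
    (hr : r ≤ (x : ℝ) ^ (1 / A)) (hN : (x : ℝ) ^ (1 / 2 : ℝ) ≤ N) : r ≤ (N : ℝ) ^ c := by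
  have hx' : (1 : ℝ) ≤ x := by exact_mod_cast hx
  have hA0 : 0 < A := lt_of_lt_of_le (by positivity) hA
  have h1 : (x : ℝ) ^ (1 / A) ≤ (x : ℝ) ^ (1 / 2 * c) := by
    refine Real.rpow_le_rpow_of_exponent_le hx' ?_
    rw [div_le_iff₀ hA0]
    rw [div_le_iff₀ hc] at hA
    nlinarith
  have h2 : (x : ℝ) ^ (1 / 2 * c) = ((x : ℝ) ^ (1 / 2 : ℝ)) ^ c :=
    Real.rpow_mul (by linarith) _ _
  have h3 : ((x : ℝ) ^ (1 / 2 : ℝ)) ^ c ≤ (N : ℝ) ^ c :=
    Real.rpow_le_rpow (by positivity) hN hc.le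
  linarith

end CRS_

theorem prove_CRS (h1 : T_BLK) (h2 : T_XZ) : T_CRS := by
  intro a p p' C η ha hp hp' hpp hpa hpa' hC hη
  obtain ⟨s, c, B, z0, hs, hc, hB, hBLK⟩ :=
    h1 a p p' (2 * C) (η / 64) ha hp hp' hpp hpa hpa' (by positivity) (by positivity)
  refine ⟨B, z0, hB, fun z V hz => ?_⟩
  obtain ⟨R, N0, hBLK⟩ := hBLK z V hz
  refine ⟨R, max (2 * s) (2 / c), le_max_of_le_left (by linarith), fun A hA => ?_⟩
  have hA1 : 2 * s ≤ A := (le_max_left _ _).trans hA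
  have hA2 : 2 / c ≤ A := (le_max_right _ _).trans hA
  obtain ⟨X, hX⟩ := eventually_atTop.mp
    ((KeyE.large_x (η / 64) C (by positivity) hC (max N0 1)).and
      ((tendsto_natCast_atTop_atTop (R := ℝ)).eventually_ge_atTop (64 / η)))
  refine ⟨X, fun x r ψ f t hx hr hrx hψ hf ht hRB M hM => ?_⟩
  obtain ⟨⟨hx1, hx2⟩, hx64⟩ := hX x hx
  have hwp := KeyE.w_pow x A s hx1 hs hA1
  set w := ⌊(x : ℝ) ^ (1 / A)⌋₊ with hw
  set N2 := ⌈η / 64 * x⌉₊ with hN2
  have hN2ge : η / 64 * x ≤ N2 := Nat.le_ceil _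
  have hN2le : (N2 : ℝ) ≤ η / 32 * x := by
    have h3 : (N2 : ℝ) < η / 64 * x + 1 := Nat.ceil_lt_add_one (by positivity)
    have h4 : 1 ≤ η / 64 * x := by
      rw [div_le_iff₀ hη] at hx64
      linarith
    linarith
  have hN21 : 1 ≤ N2 := (le_max_right _ _).trans (hx2 N2 hN2ge).1
  have hD : 1 ≤ DD z V r := (h2.1 z V r hr).1
  have hG : ∀ n, ‖Gf f ψ t (DD z V r) z w n‖ ≤ 1 := fun n =>
    (h2.2 r ψ f t (DD z V r) hf hD).2.2.1 z w n
  have key := KeyC.dyadic (fun m => Gf f ψ t (DD z V r) z w (sh a (p * m)) *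
      conj (Gf f ψ t (DD z V r) z w (sh a (p' * m)))) 1 (η / 64) N2 x hN21 (by positivity)
    ?_ ?_ M hM
  · have e : Finset.Icc 1 M = Finset.Ioc 0 M := by
      ext m; simp [Finset.mem_Icc, Finset.mem_Ioc, Nat.succ_le_iff]
    rw [e]
    refine key.trans ?_
    have hM' : (M : ℝ) ≤ x := by exact_mod_cast hM
    have h5 : 3 * (η / 64) * M ≤ 3 * (η / 64) * x :=
      mul_le_mul_of_nonneg_left hM' (by positivity)
    have h6 : 0 ≤ η * x := by positivity
    linarith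
  · intro m _
    rw [norm_mul, RCLike.norm_conj]
    exact mul_le_one₀ (hG _) (norm_nonneg _) (hG _)
  · intro N hN2N hNx x' y' hNx' hx'y' hy'
    have hNr : η / 64 * x ≤ N := hN2ge.trans (by exact_mod_cast hN2N)
    obtain ⟨m1, m2, m3⟩ := hx2 N hNr
    have hRB' : R < r ∨ B * N < |t| := by
      rcases hRB with h | h
      · exact Or.inl h
      · refine Or.inr (lt_of_le_of_lt ?_ h)
        exact mul_le_mul_of_nonneg_left (by exact_mod_cast hNx) hB.le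
    exact hBLK N w r ψ f t ((le_max_left _ _).trans m1) (hwp.trans m3) hr
      (CRS_.r_pow x N A c r hx1 hc hA2 hrx m3) hψ hf (ht.trans m2) hRB' x' y' hNx' hx'y' hy'

end Pool.Agent.TPM
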