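import Pool.Agent.TPM.Targets
import Pool.Agent.Elliott.Final
import Pool.Agent.Ell.All
import Pool.Agent.Ell.Core
import Pool.Agent.Ell.Final

set_option autoImplicit false

/-! TPM-FIN: the final theorem. -/

namespace Pool.Agent.TPM

open Finset Filter Pool.Agent.Ell
open scoped BigOperators ComplexConjugate

namespace FIN_

theorem norm_sum_Ioc_le (F : ℕ → ℂ) (hF : ∀ n, ‖F n‖ ≤ 1) (a b : ℕ) :
    ‖∑ m ∈ Finset.Ioc a b, F m‖ ≤ (b - a : ℕ) := by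
  refine (norm_sum_le _ _).trans ?_
  calc ∑ m ∈ Finset.Ioc a b, ‖F m‖ ≤ ∑ m ∈ Finset.Ioc a b, (1 : ℝ) :=
        Finset.sum_le_sum fun m _ => hF m
    _ = (b - a : ℕ) := by simp

theorem shift (F : ℕ → ℂ) (hF : ∀ n, ‖F n‖ ≤ 1) (N h : ℕ) :
    ‖∑ n ∈ Finset.Icc 1 N, F (n + h)‖ ≤ ‖∑ m ∈ Finset.Icc 1 N, F m‖ + 2 * h := by
  have h0 : Finset.Icc 1 N = Finset.Ioc 0 N := by
    ext m
    simp only [Finset.mem_Icc, Finset.mem_Ioc]
    omega
  have h1 : ∑ n ∈ Finset.Icc 1 N, F (n + h) = ∑ m ∈ Finset.Ioc h (N + h), F m := by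
    rw [h0]
    refine Finset.sum_bij (fun n _ => n + h) ?_ ?_ ?_ ?_
    · intro n hn
      simp only [Finset.mem_Ioc] at hn ⊢
      omega
    · intro a _ b _ hab
      simpa using hab
    · intro m hm
      simp only [Finset.mem_Ioc] at hm
      exact ⟨m - h, by simp only [Finset.mem_Ioc]; omega, by omega⟩
    · intro n _
      rfl
  have h2 : ∑ m ∈ Finset.Ioc 0 (N + h), F m =
      ∑ m ∈ Finset.Ioc 0 h, F m + ∑ m ∈ Finset.Ioc h (N + h), F m :=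
    (Finset.sum_Ioc_consecutive F (by omega) (by omega)).symm
  have h3 : ∑ m ∈ Finset.Ioc 0 (N + h), F m =
      ∑ m ∈ Finset.Ioc 0 N, F m + ∑ m ∈ Finset.Ioc N (N + h), F m :=
    (Finset.sum_Ioc_consecutive F (by omega) (by omega)).symm
  have h4 : ∑ m ∈ Finset.Ioc h (N + h), F m =
      ∑ m ∈ Finset.Ioc 0 N, F m + ∑ m ∈ Finset.Ioc N (N + h), F m -
        ∑ m ∈ Finset.Ioc 0 h, F m := by
    rw [← h3, h2]
    ring
  rw [h1, h4, h0]
  have h5 := norm_sum_Ioc_le F hF N (N + h)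
  have h6 := norm_sum_Ioc_le F hF 0 h
  rw [Nat.add_sub_cancel_left] at h5
  rw [Nat.sub_zero] at h6
  have h7 := norm_sub_le (∑ m ∈ Finset.Ioc 0 N, F m + ∑ m ∈ Finset.Ioc N (N + h), F m)
    (∑ m ∈ Finset.Ioc 0 h, F m)
  have h8 := norm_add_le (∑ m ∈ Finset.Ioc 0 N, F m) (∑ m ∈ Finset.Ioc N (N + h), F m)
  linarith

theorem mb {f : ArithmeticFunction ℂ} (hf : f.IsMultiplicative) (hb : ∀ n, ‖f n‖ ≤ 1) :
    MB (fun n => f n) :=
  ⟨hf.map_one, fun _ _ h => hf.map_mul_of_coprime h, hb⟩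

/-- the large case -/
theorem large (h1 : T_LC) (h₁ h₂ : ℕ) (hne : h₁ ≠ h₂) (C ε : ℝ) (hC : 0 < C) (hε : 0 < ε) :
    ∃ (R : ℕ) (B A X : ℝ), 1 ≤ A ∧ 0 ≤ B ∧ 0 ≤ X ∧ ∀ (x δ : ℝ), X ≤ x → 0 < δ → δ ≤ 1 / (2 * A) →
    ∀ f₁ f₂ : ArithmeticFunction ℂ, f₁.IsMultiplicative → f₂.IsMultiplicative →
      (∀ n, ‖f₁ n‖ ≤ 1) → (∀ n, ‖f₂ n‖ ≤ 1) →
      ∀ q : ℕ, 1 ≤ q → (q : ℝ) ≤ x ^ δ → ∀ χ : DirichletCharacter ℂ q, χ.IsPrimitive →
        ∀ t : ℝ, |t| ≤ x ^ C →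
        ∑ p ∈ (Finset.Iic ⌊x⌋₊).filter (fun p : ℕ => p.Prime ∧ x ^ δ < p),
              (1 - (f₁ p * (starRingEnd ℂ) (χ (p : ZMod q) *
                (p : ℂ) ^ ((t : ℂ) * Complex.I))).re) / (p : ℝ) ≤ δ →
        (R < q ∨ B * x < |t|) →
      ‖∑ n ∈ Finset.Icc 1 ⌊x⌋₊, f₁ (n + h₁) * f₂ (n + h₂)‖ / x ≤ ε := by
  have ha : ((h₁ : ℤ) - h₂) ≠ 0 := sub_ne_zero.mpr (by exact_mod_cast hne)
  obtain ⟨R, X, B, A, hA, H⟩ := h1 ((h₁ : ℤ) - h₂) (C + 1) (ε / 4) ha (by linarith)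
    (by positivity)
  have h2C : (0 : ℝ) < 2 ^ C := by positivity
  have hX1 : (0 : ℝ) ≤ X := by positivity
  have h8 : 0 ≤ 8 * (h₂ : ℝ) / ε := by positivity
  refine ⟨R, max B 0, A, X + 2 ^ C + 4 + 8 * h₂ / ε, hA, le_max_right _ _, by positivity, ?_⟩
  intro x δ hx hδ hδA f₁ f₂ hf₁ hf₂ hb₁ hb₂ q hq hqx χ hχ t ht hd hRB
  have hx0 : 0 < x := by linarith
  set N := ⌊x⌋₊ with hN
  have hNx : (N : ℝ) ≤ x := Nat.floor_le hx0.le
  have hxN : x < N + 1 := Nat.lt_floor_add_one x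
  have hN1 : (X : ℝ) + 2 ^ C + 3 ≤ N := by linarith
  have hXN : X ≤ N := by
    have : (X : ℝ) ≤ N := by linarith
    exact_mod_cast this
  have hN3 : (3 : ℝ) ≤ N := by linarith
  have hN0 : (N : ℝ) ≠ 0 := by linarith
  have hx2N : x ≤ 2 * N := by linarith
  have hfl : ⌊(N : ℝ)⌋₊ = N := Nat.floor_natCast N
  have hA0 : 0 < A := by linarith
  have hxd : x ^ δ ≤ (N : ℝ) ^ (1 / A) := by
    have h1 : x ^ δ ≤ x ^ (1 / (2 * A)) :=
      Real.rpow_le_rpow_of_exponent_le (by linarith) hδA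
    have h2 : x ≤ (N : ℝ) ^ (2 : ℝ) := by
      rw [Real.rpow_two]
      nlinarith
    have h3 : x ^ (1 / (2 * A)) ≤ ((N : ℝ) ^ (2 : ℝ)) ^ (1 / (2 * A)) :=
      Real.rpow_le_rpow hx0.le h2 (by positivity)
    refine h1.trans (h3.trans ?_)
    rw [← Real.rpow_mul (by positivity)]
    have h4 : (2 : ℝ) * (1 / (2 * A)) = 1 / A := by
      field_simp
    rw [h4]
  have htN : |t| ≤ (N : ℝ) ^ (C + 1) := by
    refine ht.trans ?_
    have h1 : x ^ C ≤ (2 * (N : ℝ)) ^ C := Real.rpow_le_rpow hx0.le hx2N hC.le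
    refine h1.trans ?_
    rw [Real.mul_rpow (by norm_num) (by positivity), Real.rpow_add_one hN0, mul_comm]
    exact mul_le_mul_of_nonneg_left (by linarith) (by positivity)
  have hdN : dist2 (fun n => f₁ n) χ t ((N : ℝ) ^ (1 / A)) N ≤ 1 / A := by
    refine le_trans ?_ (hd.trans ?_)
    · unfold dist2
      rw [hfl]
      refine Finset.sum_le_sum_of_subset_of_nonneg ?_ ?_
      · intro p hp
        simp only [Finset.mem_filter, Finset.mem_Iic] at hp ⊢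
        exact ⟨hp.1, hp.2.1, lt_of_le_of_lt hxd hp.2.2⟩
      · intro p _ _
        exact Final.term_nonneg (fun n => f₁ n) hb₁ χ t p
    · refine hδA.trans ?_
      exact one_div_le_one_div_of_le hA0 (by linarith)
  have hRB' : R < q ∨ B * N < |t| := by
    rcases hRB with h | h
    · exact Or.inl h
    · right
      refine lt_of_le_of_lt ?_ h
      calc B * (N : ℝ) ≤ max B 0 * N :=
            mul_le_mul_of_nonneg_right (le_max_left _ _) (by positivity)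
        _ ≤ max B 0 * x := mul_le_mul_of_nonneg_left hNx (le_max_right _ _)
  have key := H N q χ (fun n => f₁ n) (fun n => f₂ n) t hXN (mb hf₁ hb₁) (mb hf₂ hb₂) hq hχ
    (hqx.trans hxd) htN hdN hRB'
  have hS := shift (fun m => f₂ m * f₁ (sh ((h₁ : ℤ) - h₂) m)) (fun m => by
    rw [norm_mul]
    exact mul_le_one₀ (hb₂ m) (norm_nonneg _) (hb₁ _)) N h₂
  have hE : ∑ n ∈ Finset.Icc 1 N, f₁ (n + h₁) * f₂ (n + h₂) =
      ∑ n ∈ Finset.Icc 1 N, f₂ (n + h₂) * f₁ (sh ((h₁ : ℤ) - h₂) (n + h₂)) := by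
    refine Finset.sum_congr rfl fun n _ => ?_
    have h1 : sh ((h₁ : ℤ) - h₂) (n + h₂) = n + h₁ := by
      unfold sh
      push_cast
      have : ((n : ℤ) + h₂ + (h₁ - h₂)) = ((n + h₁ : ℕ) : ℤ) := by push_cast; ring
      rw [this, Int.toNat_natCast]
    rw [h1, mul_comm]
  rw [hE, div_le_iff₀ hx0]
  refine hS.trans ?_
  have h5 : 8 * (h₂ : ℝ) ≤ ε * x := by
    have h6 : 8 * (h₂ : ℝ) / ε ≤ x := by linarith
    rw [div_le_iff₀ hε] at h6
    linarith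
  have h7 : ε / 4 * N ≤ ε / 4 * x := mul_le_mul_of_nonneg_left hNx (by positivity)
  have h8 : 0 < ε * x := by positivity
  have key' : ‖∑ m ∈ Finset.Icc 1 N, f₂ m * f₁ (sh ((h₁ : ℤ) - h₂) m)‖ ≤ ε / 4 * N := key
  linarith

/-- the sums over large primes decrease -/
theorem tail_le {q : ℕ} (f : ArithmeticFunction ℂ) (hf : ∀ n, ‖f n‖ ≤ 1)
    (χ : DirichletCharacter ℂ q) (t x y z : ℝ) (h : y ≤ z) :
    ∑ p ∈ (Finset.Iic ⌊x⌋₊).filter (fun p : ℕ => p.Prime ∧ z < p),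
      (1 - (f p * (starRingEnd ℂ) (χ (p : ZMod q) *
        (p : ℂ) ^ ((t : ℂ) * Complex.I))).re) / (p : ℝ) ≤
    ∑ p ∈ (Finset.Iic ⌊x⌋₊).filter (fun p : ℕ => p.Prime ∧ y < p),
      (1 - (f p * (starRingEnd ℂ) (χ (p : ZMod q) *
        (p : ℂ) ^ ((t : ℂ) * Complex.I))).re) / (p : ℝ) := by
  refine Finset.sum_le_sum_of_subset_of_nonneg ?_ ?_
  · intro p hp
    simp only [Finset.mem_filter, Finset.mem_Iic] at hp ⊢
    exact ⟨hp.1, hp.2.1, lt_of_le_of_lt h hp.2.2⟩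
  · intro p _ _
    exact Final.term_nonneg (fun n => f n) hf χ t p

end FIN_

theorem prove_FIN (h1 : T_LC) : T_FIN := by
  intro h₁ h₂ hne C ε hC hε
  obtain ⟨R1, B1, A1, X1, hA1, hB1, hX1, H1⟩ := FIN_.large h1 h₁ h₂ hne C ε hC hε
  obtain ⟨R2, B2, A2, X2, hA2, hB2, hX2, H2⟩ := FIN_.large h1 h₂ h₁ hne.symm C ε hC hε
  obtain ⟨δ', hδ', A₀', H3⟩ := Pool.Agent.Elliott.twoPoint h₁ h₂ hne ε hε
  obtain ⟨C', hC'⟩ := exists_nat_ge ((R2 : ℝ) + C)
  have hinj : Function.Injective (![h₁, h₂] : Fin (1 + 1) → ℕ) := by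
    intro i j hij
    fin_cases i <;> fin_cases j <;> simp_all
  obtain ⟨A₀'', H4⟩ := Pool.Agent.Ell.Final.final (Pool.Agent.Ell.main_of_core
    Pool.Agent.Ell.p_CORE) 1 (![h₁, h₂] : Fin (1 + 1) → ℕ) le_rfl hinj C' ε hε
  obtain ⟨A', hA'⟩ : ∃ A' : ℝ, A' = max A₀' (2 + R1 + B1) := ⟨_, rfl⟩
  obtain ⟨A'', hA''⟩ : ∃ A'' : ℝ, A'' = max A₀'' 2 := ⟨_, rfl⟩
  have hR1 : (0 : ℝ) ≤ R1 := by positivity
  have hR2 : (0 : ℝ) ≤ R2 := by positivity
  have hA'1 : 2 + R1 + B1 ≤ A' := by rw [hA']; exact le_max_right _ _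
  have hA'2 : A₀' ≤ A' := by rw [hA']; exact le_max_left _ _
  have hA''1 : 2 ≤ A'' := by rw [hA'']; exact le_max_right _ _
  have hA''2 : A₀'' ≤ A'' := by rw [hA'']; exact le_max_left _ _
  obtain ⟨δ, hδ⟩ : ∃ δ : ℝ, δ = min (min δ' (1 / A'')) (min (1 / (2 * A1)) (1 / (2 * A2))) :=
    ⟨_, rfl⟩
  have hA''0 : 0 < A'' := by linarith
  have hd0 : 0 < δ := by
    rw [hδ]
    have : 0 < 1 / A'' := by positivity
    have : 0 < 1 / (2 * A1) := by positivity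
    have : 0 < 1 / (2 * A2) := by positivity
    simp only [lt_min_iff]
    exact ⟨⟨by assumption, by assumption⟩, by assumption, by assumption⟩
  have hd1 : δ ≤ δ' := by rw [hδ]; exact (min_le_left _ _).trans (min_le_left _ _)
  have hd2 : δ ≤ 1 / A'' := by rw [hδ]; exact (min_le_left _ _).trans (min_le_right _ _)
  have hd3 : δ ≤ 1 / (2 * A1) := by rw [hδ]; exact (min_le_right _ _).trans (min_le_left _ _)
  have hd4 : δ ≤ 1 / (2 * A2) := by rw [hδ]; exact (min_le_right _ _).trans (min_le_right _ _)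
  refine ⟨δ, hd0, A' + A'' + R1 + R2 + B1 + B2 + X1 + X2, ?_⟩
  intro A hA2 hA x hx f₁ f₂ hf₁ hf₂ hb₁ hb₂ ⟨q, hq, hqx, χ, hχ, t, ht, hcase⟩
  have hx0 : 0 < x := by linarith
  have hx1 : 1 ≤ x := by linarith
  rcases hcase with ⟨hd, himp⟩ | ⟨hd, himp⟩
  · by_cases hL : R1 < q ∨ B1 * x < |t|
    · exact H1 x δ (by linarith) hd0 hd3 f₁ f₂ hf₁ hf₂ hb₁ hb₂ q hq hqx χ hχ t ht hd hL
    · push Not at hL
      obtain ⟨hL1, hL2⟩ := hL
      have hL1' : (q : ℝ) ≤ R1 := by exact_mod_cast hL1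
      have h5 := himp (by linarith) (hL2.trans (mul_le_mul_of_nonneg_right (by linarith) hx0.le))
      refine H3 A' (by linarith) hA'2 x (by linarith) f₁ f₂ hf₁ hf₂ hb₁ hb₂ q hq (by linarith) χ t
        ?_ ?_ ?_
      · refine hL2.trans (mul_le_mul (by linarith) ?_ hx0.le (by linarith))
        calc x = x ^ (1 : ℝ) := (Real.rpow_one x).symm
          _ ≤ x ^ (3 / 2 : ℝ) := Real.rpow_le_rpow_of_exponent_le hx1 (by norm_num)
      · exact le_trans (by linarith) h5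
      · exact (FIN_.tail_le f₁ hb₁ χ t x (x ^ δ) (x ^ δ')
          (Real.rpow_le_rpow_of_exponent_le hx1 hd1)).trans (hd.trans hd1)
  · by_cases hL : R2 < q ∨ B2 * x < |t|
    · have h5 := H2 x δ (by linarith) hd0 hd4 f₂ f₁ hf₂ hf₁ hb₂ hb₁ q hq hqx χ hχ t ht hd hL
      have h6 : ∑ n ∈ Finset.Icc 1 ⌊x⌋₊, f₁ (n + h₁) * f₂ (n + h₂) =
          ∑ n ∈ Finset.Icc 1 ⌊x⌋₊, f₂ (n + h₂) * f₁ (n + h₁) :=
        Finset.sum_congr rfl fun n _ => mul_comm _ _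
      rw [h6]
      exact h5
    · push Not at hL
      obtain ⟨hL1, hL2⟩ := hL
      have hL1' : (q : ℝ) ≤ R2 := by exact_mod_cast hL1
      have h5 := H4 A'' hA''1 hA''2 x (by linarith) (![f₁, f₂] : Fin (1 + 1) →
        ArithmeticFunction ℂ) ?_ ?_ ?_ ?_
      · have h6 : ∑ n ∈ Finset.Icc 1 ⌊x⌋₊, f₁ (n + h₁) * f₂ (n + h₂) =
            ∑ n ∈ Finset.Icc 1 ⌊x⌋₊, ∏ i, (![f₁, f₂] : Fin (1 + 1) → ArithmeticFunction ℂ) i
              (n + (![h₁, h₂] : Fin (1 + 1) → ℕ) i) := by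
          refine Finset.sum_congr rfl fun n _ => ?_
          rw [Fin.prod_univ_two]
          rfl
        rw [h6]
        exact h5
      · intro i
        fin_cases i
        · exact hf₁
        · exact hf₂
      · intro i n
        fin_cases i
        · exact hb₁ n
        · exact hb₂ n
      · intro q' hq' hqA χ' t' ht'
        rw [pow_one] at ht'
        have h6 := himp q' hq' (by linarith) χ' t' (ht'.trans
          (mul_le_mul_of_nonneg_right (by linarith) hx0.le))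
        exact le_trans (by linarith) h6
      · refine ⟨0, fun j hj => ?_⟩
        have hj1 : j = 1 := by
          fin_cases j
          · exact absurd rfl hj
          · rfl
        subst hj1
        refine ⟨q, hq, ?_, χ, t, ?_, ?_⟩
        · have : (q : ℝ) ≤ C' := by linarith
          exact_mod_cast this
        · refine ht.trans ?_
          rw [← Real.rpow_natCast]
          exact Real.rpow_le_rpow_of_exponent_le hx1 (by linarith)
        · exact (FIN_.tail_le f₂ hb₂ χ t x (x ^ δ) (x ^ (1 / A''))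
            (Real.rpow_le_rpow_of_exponent_le hx1 hd2)).trans (hd.trans hd2)

end Pool.Agent.TPM
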