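import Pool.Agent.TPM.Targets

set_option autoImplicit false

/-! TPM-MN: the mean of the cross product is small for a large conductor. -/

namespace Pool.Agent.TPM

open Finset Filter Pool.Agent.Ell
open scoped BigOperators ComplexConjugate

theorem prove_MN (h1 : T_MEA) (h2 : T_MEB) : T_MN := by
  intro a p p' η ha hp hp' hne hη
  obtain ⟨K1, hK1, H1⟩ := h1 a p p' ha hp hp' hne
  refine ⟨max (⌈K1 / η⌉₊) (max p p'), ?_⟩
  intro z V hz
  have hz1 : ⌈K1 / η⌉₊ ≤ z := (le_max_left _ _).trans hz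
  have hz2 : p ≤ z := ((le_max_left _ _).trans (le_max_right _ _)).trans hz
  have hz3 : p' ≤ z := ((le_max_right _ _).trans (le_max_right _ _)).trans hz
  obtain ⟨K2, hK2, H2⟩ := h2 a p p' z V ha hp hp' hne
  refine ⟨⌈K2 / η⌉₊, ?_⟩
  intro r ψ f t hr hψ hf
  by_cases h : ∀ ℓ : ℕ, ℓ.Prime → ℓ ∣ r → ℓ ≤ z
  · refine (H2 r ψ f t (by omega) hψ hf h).trans ?_
    have h3 : K2 / η ≤ r := (Nat.le_ceil _).trans (by exact_mod_cast hr.le)
    have hr0 : (0 : ℝ) < r := by exact_mod_cast (by omega : 0 < r)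
    rw [div_le_iff₀ hη] at h3
    rw [div_le_iff₀ hr0]
    linarith
  · push Not at h
    obtain ⟨ℓ, hℓ, hℓr, hℓz⟩ := h
    refine (H1 z V r ℓ ψ f t (by omega) hψ hf hℓ hℓr hℓz hz2 hz3).trans ?_
    have h3 : K1 / η ≤ ℓ := (Nat.le_ceil _).trans (by exact_mod_cast (by omega : ⌈K1 / η⌉₊ ≤ ℓ))
    have hℓ0 : (0 : ℝ) < ℓ := by exact_mod_cast hℓ.pos
    rw [div_le_iff₀ hη] at h3
    rw [div_le_iff₀ hℓ0]
    linarith

end Pool.Agent.TPM
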