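import Pool.Agent.TPM.XZ
import Pool.Agent.TPM.RAM2
import Pool.Agent.TPM.FAC
import Pool.Agent.TPM.MSU
import Pool.Agent.TPM.STR
import Pool.Agent.TPM.MEA
import Pool.Agent.TPM.MEB
import Pool.Agent.TPM.MN
import Pool.Agent.TPM.BLK
import Pool.Agent.TPM.CRS
import Pool.Agent.TPM.LC
import Pool.Agent.TPM.FIN
import Pool.Agent.Ell.All
import Pool.Agent.Ell.Core
import Pool.Agent.EllTw.RAM

set_option autoImplicit false

namespace Pool.Agent.TPM

open Pool.Agent.Ell

theorem all_LC : T_LC := by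
  have hms : T_MSU := prove_MSU (p_FL p_MERT) p_CRT
  have heq : T_EQ := p_EQ p_CORE p_PHI
  have hosc : T_OSC := p_OSC p_CORE p_PHI
  have hmn : T_MN := prove_MN (prove_MEA prove_FAC EllTw.p_RAM)
    (prove_MEB prove_RAM2 prove_XZ prove_AVG)
  exact prove_LC p_KAT (prove_CRS (prove_BLK hms heq hosc hmn prove_XZ) prove_XZ)
    (prove_STR p_MERT prove_XZ) prove_XZ

theorem all_FIN : T_FIN := prove_FIN all_LC

end Pool.Agent.TPM
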